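import Pool.Agent.Lib.MP_4ed7e0_lc.Ctx

/-!
Project R4A (MP_4ed7e0_lc), module A1: calculus of additive polynomials.
-/

set_option autoImplicit false

namespace Pool.Agent.R4A

noncomputable section

universe u

variable {p : ℕ} {K L M : Type u} [Field K] [Field L] [Algebra K L]
  [CommRing M] [Algebra K M]

theorem alg_charP (p : ℕ) (K : Type u) (N : Type u) [Field K] [CommRing N] [Algebra K N]
    [Nontrivial N] [CharP K p] : CharP N p :=
  charP_of_injective_algebraMap (algebraMap K N).injective p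

theorem ev_poly_zero (x : M) : ev p (0 : ℕ →₀ K) x = 0 := Finsupp.sum_zero_index

theorem ev_poly_add (a b : ℕ →₀ K) (x : M) : ev p (a + b) x = ev p a x + ev p b x := by
  unfold ev
  refine Finsupp.sum_add_index' (fun k => ?_) (fun k c d => ?_)
  · rw [map_zero, zero_mul]
  · rw [map_add, add_mul]

theorem ev_poly_smul (c : K) (a : ℕ →₀ K) (x : M) :
    ev p (c • a) x = algebraMap K M c * ev p a x := by
  unfold ev
  rw [Finsupp.sum_smul_index' (fun k => by rw [map_zero, zero_mul]), Finsupp.mul_sum]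
  refine Finset.sum_congr rfl fun k _ => ?_
  simp only [smul_eq_mul, map_mul, mul_assoc]

theorem alg_ev_single (k : ℕ) (c : K) (x : M) :
    ev p (Finsupp.single k c) x = algebraMap K M c * x ^ p ^ k := by
  unfold ev
  rw [Finsupp.sum_single_index]
  rw [map_zero, zero_mul]

theorem alg_ev_sum {ι : Type*} (s : Finset ι) (a : ι → ℕ →₀ K) (x : M) :
    ev p (∑ i ∈ s, a i) x = ∑ i ∈ s, ev p (a i) x := by
  classical
  induction s using Finset.induction_on with
  | empty => rw [Finset.sum_empty, Finset.sum_empty, ev_poly_zero]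
  | insert i s hi ih => rw [Finset.sum_insert hi, Finset.sum_insert hi, ev_poly_add, ih]

theorem ev_add [Fact p.Prime] [CharP K p] (a : ℕ →₀ K) (x y : M) :
    ev p a (x + y) = ev p a x + ev p a y := by
  rcases subsingleton_or_nontrivial M with hM | hM
  · exact Subsingleton.elim _ _
  · have := alg_charP p K M
    unfold ev
    rw [← Finsupp.sum_add]
    refine Finset.sum_congr rfl fun k _ => ?_
    simp only [add_pow_char_pow, mul_add]

theorem ev_zero (a : ℕ →₀ K) (hp : p ≠ 0) : ev p a (0 : M) = 0 := by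
  unfold ev
  refine Finset.sum_eq_zero fun k _ => ?_
  simp only [zero_pow (pow_ne_zero k hp), mul_zero]

/-- `a ∘ (c X^(p^e))` -/
theorem ev_comp (a : ℕ →₀ K) (c : K) (e : ℕ) : ∃ a' : ℕ →₀ K,
    (∀ k, a' (k + e) = a k * c ^ p ^ k) ∧ (∀ k, k < e → a' k = 0) ∧
    ∀ (N : Type u) [CommRing N] [Algebra K N] (x : N),
      ev p a' x = ev p a (algebraMap K N c * x ^ p ^ e) := by
  classical
  refine ⟨∑ k ∈ a.support, Finsupp.single (k + e) (a k * c ^ p ^ k), fun k => ?_, fun k hk => ?_,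
    fun N _ _ x => ?_⟩
  · rw [Finsupp.finsetSum_apply, Finset.sum_eq_single k]
    · rw [Finsupp.single_eq_same]
    · intro j _ hj
      rw [Finsupp.single_eq_of_ne]
      omega
    · intro hk
      rw [Finsupp.single_eq_same, Finsupp.notMem_support_iff.1 hk, zero_mul]
  · rw [Finsupp.finsetSum_apply]
    refine Finset.sum_eq_zero fun j _ => ?_
    rw [Finsupp.single_eq_of_ne]
    omega
  · rw [alg_ev_sum]
    unfold ev
    refine Finset.sum_congr rfl fun k _ => ?_
    rw [Finsupp.sum_single_index (by rw [map_zero, zero_mul])]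
    simp only [map_mul, map_pow, mul_pow, ← pow_mul, ← pow_add, add_comm e k]
    ring

theorem ev_pow [Fact p.Prime] [CharP K p] (a : ℕ →₀ K) : ∃ a' : ℕ →₀ K,
    ∀ (N : Type u) [CommRing N] [Algebra K N] (x : N), ev p a' x = ev p a x ^ p := by
  refine ⟨∑ k ∈ a.support, Finsupp.single (k + 1) (a k ^ p), fun N _ _ x => ?_⟩
  rcases subsingleton_or_nontrivial N with hN | hN
  · exact Subsingleton.elim _ _
  · have := alg_charP p K N
    rw [alg_ev_sum]
    unfold ev
    rw [Finsupp.sum, sum_pow_char]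
    refine Finset.sum_congr rfl fun k _ => ?_
    rw [Finsupp.sum_single_index (by rw [map_zero, zero_mul]), map_pow, mul_pow, ← pow_mul,
      pow_succ]

theorem evs_add [Fact p.Prime] [CharP K p] {n : ℕ} (P : Fin n → ℕ →₀ K) (x y : Fin n → M) :
    evs p P (x + y) = evs p P x + evs p P y := by
  unfold evs
  rw [← Finset.sum_add_distrib]
  exact Finset.sum_congr rfl fun j _ => ev_add _ _ _

theorem evs_poly_add {n : ℕ} (P Q : Fin n → ℕ →₀ K) (x : Fin n → M) :
    evs p (P + Q) x = evs p P x + evs p Q x := by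
  unfold evs
  rw [← Finset.sum_add_distrib]
  exact Finset.sum_congr rfl fun j _ => ev_poly_add _ _ _

theorem evs_poly_zero {n : ℕ} (x : Fin n → M) : evs p (0 : Fin n → ℕ →₀ K) x = 0 :=
  Finset.sum_eq_zero fun _ _ => ev_poly_zero _

theorem evs_poly_smul {n : ℕ} (c : K) (P : Fin n → ℕ →₀ K) (x : Fin n → M) :
    evs p (c • P) x = algebraMap K M c * evs p P x := by
  unfold evs
  rw [Finset.mul_sum]
  exact Finset.sum_congr rfl fun j _ => ev_poly_smul _ _ _

theorem evs_pow [Fact p.Prime] [CharP K p] {n : ℕ} (P : Fin n → ℕ →₀ K) :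
    ∃ P' : Fin n → ℕ →₀ K, ∀ (N : Type u) [CommRing N] [Algebra K N] (x : Fin n → N),
      evs p P' x = evs p P x ^ p := by
  choose P' hP' using fun j => ev_pow (p := p) (P j)
  refine ⟨P', fun N _ _ x => ?_⟩
  rcases subsingleton_or_nontrivial N with hN | hN
  · exact Subsingleton.elim _ _
  · have := alg_charP p K N
    unfold evs
    rw [sum_pow_char]
    exact Finset.sum_congr rfl fun j _ => hP' j N (x j)

theorem spn_add {n : ℕ} (x : Fin n → L) {a b : L} (ha : a ∈ spn p K x) (hb : b ∈ spn p K x) :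
    a + b ∈ spn p K x := by
  obtain ⟨P, rfl⟩ := ha
  obtain ⟨Q, rfl⟩ := hb
  exact ⟨P + Q, (evs_poly_add _ _ _).symm⟩

theorem spn_smul {n : ℕ} (x : Fin n → L) (c : K) {a : L} (ha : a ∈ spn p K x) :
    algebraMap K L c * a ∈ spn p K x := by
  obtain ⟨P, rfl⟩ := ha
  exact ⟨c • P, (evs_poly_smul _ _ _).symm⟩

theorem spn_pow [Fact p.Prime] [CharP K p] {n : ℕ} (x : Fin n → L) {a : L}
    (ha : a ∈ spn p K x) : a ^ p ∈ spn p K x := by
  obtain ⟨P, rfl⟩ := ha
  obtain ⟨P', hP'⟩ := evs_pow (p := p) P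
  exact ⟨P', (hP' L x).symm⟩

theorem spn_self {n : ℕ} (x : Fin n → L) (i : Fin n) : x i ∈ spn p K x := by
  classical
  refine ⟨Pi.single i (Finsupp.single 0 1), ?_⟩
  unfold evs
  rw [Finset.sum_eq_single i]
  · rw [Pi.single_eq_same, alg_ev_single, map_one, one_mul, pow_zero, pow_one]
  · intro j _ hj
    rw [Pi.single_eq_of_ne hj, ev_poly_zero]
  · intro h
    exact absurd (Finset.mem_univ i) h

theorem alg_pow_mem {W : Set L} (hf : ∀ a ∈ W, a ^ p ∈ W) {a : L} (ha : a ∈ W) (k : ℕ) :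
    a ^ p ^ k ∈ W := by
  induction k with
  | zero => rwa [pow_zero, pow_one]
  | succ k ih =>
    rw [pow_succ, pow_mul]
    exact hf _ ih

theorem alg_sum_mem {W : Set L} (h0 : (0 : L) ∈ W) (ha : ∀ a ∈ W, ∀ b ∈ W, a + b ∈ W)
    {ι : Type*} (s : Finset ι) (f : ι → L) (hf : ∀ i ∈ s, f i ∈ W) : ∑ i ∈ s, f i ∈ W := by
  classical
  induction s using Finset.induction_on with
  | empty => rwa [Finset.sum_empty]
  | insert i s hi ih =>
    rw [Finset.sum_insert hi]
    exact ha _ (hf i (Finset.mem_insert_self i s)) _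
      (ih fun j hj => hf j (Finset.mem_insert_of_mem hj))

theorem alg_ev_mem {W : Set L} (h0 : (0 : L) ∈ W) (ha : ∀ a ∈ W, ∀ b ∈ W, a + b ∈ W)
    (hs : ∀ (c : K), ∀ a ∈ W, algebraMap K L c * a ∈ W) (hf : ∀ a ∈ W, a ^ p ∈ W)
    (P : ℕ →₀ K) {x : L} (hx : x ∈ W) : ev p P x ∈ W :=
  alg_sum_mem h0 ha _ _ fun k _ => hs _ _ (alg_pow_mem hf hx k)

/-- a set closed under the operations contains the span -/
theorem spn_le {W : Set L} (h0 : (0 : L) ∈ W) (ha : ∀ a ∈ W, ∀ b ∈ W, a + b ∈ W)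
    (hs : ∀ (c : K), ∀ a ∈ W, algebraMap K L c * a ∈ W) (hf : ∀ a ∈ W, a ^ p ∈ W) {n : ℕ}
    {x : Fin n → L} (hx : ∀ i, x i ∈ W) : spn p K x ⊆ W := by
  rintro w ⟨P, rfl⟩
  exact alg_sum_mem h0 ha _ _ fun j _ => alg_ev_mem h0 ha hs hf _ (hx j)

theorem alg_hm_sum {W : Set L} (h0 : (0 : L) ∈ W) (h : ∀ a ∈ W, ∀ b ∈ W, a + b ∈ W)
    {θ : L → M} (hθ : Hm p K W θ) {ι : Type*} (s : Finset ι) (f : ι → L)
    (hf : ∀ i ∈ s, f i ∈ W) : θ (∑ i ∈ s, f i) = ∑ i ∈ s, θ (f i) := by
  classical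
  have hθ0 : θ 0 = 0 := by
    have h1 := hθ.add 0 h0 0 h0
    rw [add_zero] at h1
    exact left_eq_add.1 h1
  induction s using Finset.induction_on with
  | empty => rw [Finset.sum_empty, Finset.sum_empty, hθ0]
  | insert i s hi ih =>
    rw [Finset.sum_insert hi, Finset.sum_insert hi,
      hθ.add _ (hf i (Finset.mem_insert_self i s)) _
        (alg_sum_mem h0 h s f fun j hj => hf j (Finset.mem_insert_of_mem hj)),
      ih fun j hj => hf j (Finset.mem_insert_of_mem hj)]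

/-- homomorphisms commute with additive polynomials -/
theorem hm_evs [Fact p.Prime] [CharP K p] {n : ℕ} {x : Fin n → L} {W : Set L}
    (h : ∀ a ∈ W, ∀ b ∈ W, a + b ∈ W)
    (hs : ∀ (c : K), ∀ a ∈ W, algebraMap K L c * a ∈ W) (hf : ∀ a ∈ W, a ^ p ∈ W)
    (hx : ∀ i, x i ∈ W) (h0 : (0 : L) ∈ W) {θ : L → M} (hθ : Hm p K W θ) (P : Fin n → ℕ →₀ K) :
    θ (evs p P x) = evs p P (fun i => θ (x i)) := by
  have hpow : ∀ a ∈ W, ∀ k, θ (a ^ p ^ k) = θ a ^ p ^ k := by
    intro a ha k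
    induction k with
    | zero => simp
    | succ k ih =>
      rw [pow_succ, pow_mul, hθ.frob _ (alg_pow_mem hf ha k), ih, ← pow_mul]
  unfold evs
  rw [alg_hm_sum h0 h hθ _ _ fun j _ => alg_ev_mem h0 h hs hf _ (hx j)]
  refine Finset.sum_congr rfl fun j _ => ?_
  unfold ev
  rw [Finsupp.sum, Finsupp.sum, alg_hm_sum h0 h hθ _ _ fun k _ => hs _ _ (alg_pow_mem hf (hx j) k)]
  refine Finset.sum_congr rfl fun k _ => ?_
  rw [hθ.smul _ _ (alg_pow_mem hf (hx j) k), hpow _ (hx j)]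

end

end Pool.Agent.R4A
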