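import Pool.Agent.Lib.MP_4ed7e0_lc.Ctx

/-!
The residue map of a rational place; values of finite dimensional spaces and of sums of `p`-th
powers (module A2 of project R4A).
-/

set_option autoImplicit false

namespace Pool.Agent.R4A

noncomputable section

universe u

variable {p : ℕ} {K L M : Type u} [Field K] [Field L] [Algebra K L]
  [CommRing M] [Algebra K M]

section Res

variable {O : ValuationSubring L}

theorem Res.val_le (h : IsRat K O) (c : K) : O.valuation (algebraMap K L c) ≤ 1 :=
  (O.valuation_le_one_iff _).2 (h.1 c)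

theorem val_const (h : IsRat K O) {c : K} (hc : c ≠ 0) : O.valuation (algebraMap K L c) = 1 := by
  refine le_antisymm (Res.val_le h c) ?_
  have h1 : O.valuation (algebraMap K L c) * O.valuation (algebraMap K L c⁻¹) = 1 := by
    rw [← map_mul, ← map_mul, mul_inv_cancel₀ hc, map_one, map_one]
  calc (1 : O.ValueGroup) = O.valuation (algebraMap K L c) * O.valuation (algebraMap K L c⁻¹) :=
        h1.symm
    _ ≤ O.valuation (algebraMap K L c) * 1 := mul_le_mul_right (Res.val_le h c⁻¹) _
    _ = _ := mul_one _

theorem Res.eq_zero_of_lt (h : IsRat K O) {c : K} (hc : O.valuation (algebraMap K L c) < 1) :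
    c = 0 := by
  by_contra h0
  rw [val_const h h0] at hc
  exact lt_irrefl _ hc

theorem Res.unique (h : IsRat K O) {a : L} {c c' : K}
    (hc : O.valuation (a - algebraMap K L c) < 1) (hc' : O.valuation (a - algebraMap K L c') < 1) :
    c = c' := by
  have h1 : O.valuation (algebraMap K L (c - c')) < 1 := by
    have h2 : algebraMap K L (c - c') = (a - algebraMap K L c') - (a - algebraMap K L c) := by
      rw [map_sub]; ring
    rw [h2]
    exact Valuation.map_sub_lt _ hc' hc
  exact sub_eq_zero.1 (Res.eq_zero_of_lt h h1)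

/-- the residue map -/
theorem exists_res (h : IsRat K O) : ∃ res : L → K,
    (∀ a ∈ O, O.valuation (a - algebraMap K L (res a)) < 1) ∧ (∀ c, res (algebraMap K L c) = c) ∧
    (∀ a ∈ O, ∀ b ∈ O, res (a + b) = res a + res b) ∧
    (∀ a ∈ O, ∀ b ∈ O, res (a * b) = res a * res b) ∧
    (∀ a ∈ O, ∀ k : ℕ, res (a ^ k) = res a ^ k) ∧
    ∀ a ∈ O, O.valuation a < 1 ↔ res a = 0 := by
  classical
  have hex : ∀ a : L, ∃ c : K, a ∈ O → O.valuation (a - algebraMap K L c) < 1 := by
    intro a
    by_cases ha : a ∈ O
    · obtain ⟨c, hc⟩ := h.2 a ha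
      exact ⟨c, fun _ => hc⟩
    · exact ⟨0, fun h' => absurd h' ha⟩
  choose res hres using hex
  have h2 : ∀ c, res (algebraMap K L c) = c := by
    intro c
    refine Res.unique h (hres _ (h.1 c)) ?_
    rw [sub_self, map_zero]
    exact zero_lt_one
  have h4 : ∀ a ∈ O, ∀ b ∈ O, res (a * b) = res a * res b := by
    intro a ha b hb
    refine Res.unique h (hres _ (O.mul_mem _ _ ha hb)) ?_
    have e : a * b - algebraMap K L (res a * res b) =
        (a - algebraMap K L (res a)) * b + algebraMap K L (res a) *
          (b - algebraMap K L (res b)) := by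
      rw [map_mul]; ring
    rw [e]
    refine Valuation.map_add_lt _ ?_ ?_
    · rw [map_mul]
      calc O.valuation (a - algebraMap K L (res a)) * O.valuation b
          ≤ O.valuation (a - algebraMap K L (res a)) * 1 :=
            mul_le_mul_right ((O.valuation_le_one_iff _).2 hb) _
        _ < 1 := by rw [mul_one]; exact hres a ha
    · rw [map_mul]
      calc O.valuation (algebraMap K L (res a)) * O.valuation (b - algebraMap K L (res b))
          ≤ 1 * O.valuation (b - algebraMap K L (res b)) := mul_le_mul_left (Res.val_le h _) _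
        _ < 1 := by rw [one_mul]; exact hres b hb
  have h1 : res 1 = 1 := by
    have := h2 1
    rwa [map_one] at this
  refine ⟨res, hres, h2, ?_, h4, ?_, ?_⟩
  · intro a ha b hb
    refine Res.unique h (hres _ (O.add_mem _ _ ha hb)) ?_
    have e : a + b - algebraMap K L (res a + res b) =
        (a - algebraMap K L (res a)) + (b - algebraMap K L (res b)) := by
      rw [map_add]; ring
    rw [e]
    exact Valuation.map_add_lt _ (hres a ha) (hres b hb)
  · intro a ha k
    induction k with
    | zero => rw [pow_zero, pow_zero, h1]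
    | succ k ih => rw [pow_succ, pow_succ, h4 _ (pow_mem ha k) _ ha, ih]
  · intro a ha
    constructor
    · intro hv
      refine Res.unique h (hres a ha) ?_
      rwa [map_zero, sub_zero]
    · intro h0
      have := hres a ha
      rwa [h0, map_zero, sub_zero] at this

/-- elements with different values are independent -/
theorem Res.indep (h : IsRat K O) {ι : Type*} (e : ι → L) (h0 : ∀ i, e i ≠ 0)
    (hinj : Function.Injective fun i => O.valuation (e i)) : LinearIndependent K e := by
  classical
  rw [linearIndependent_iff']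
  intro t g hg
  by_contra hne
  push Not at hne
  obtain ⟨i₁, hi₁, hgi⟩ := hne
  obtain ⟨i₀, hi₀, hmax⟩ := Finset.exists_max_image (t.filter fun i => g i ≠ 0)
    (fun i => O.valuation (e i)) ⟨i₁, Finset.mem_filter.2 ⟨hi₁, hgi⟩⟩
  rw [Finset.mem_filter] at hi₀
  have hv0 : O.valuation (e i₀) ≠ 0 := (Valuation.ne_zero_iff _).2 (h0 i₀)
  have h1 : O.valuation (g i₀ • e i₀) = O.valuation (e i₀) := by
    rw [Algebra.smul_def, map_mul, val_const h hi₀.2, one_mul]
  have h2 : O.valuation (∑ i ∈ t.erase i₀, g i • e i) < O.valuation (e i₀) := by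
    refine Valuation.map_sum_lt _ hv0 fun i hi => ?_
    by_cases hgi' : g i = 0
    · rw [hgi', zero_smul, map_zero]
      exact zero_lt_iff.2 hv0
    · rw [Algebra.smul_def, map_mul, val_const h hgi', one_mul]
      refine lt_of_le_of_ne (hmax i (Finset.mem_filter.2 ⟨Finset.mem_of_mem_erase hi, hgi'⟩)) ?_
      intro he
      exact Finset.ne_of_mem_erase hi (hinj he)
  have h3 : g i₀ • e i₀ = -∑ i ∈ t.erase i₀, g i • e i := by
    rw [← Finset.add_sum_erase t _ hi₀.1] at hg
    exact eq_neg_of_add_eq_zero_left hg
  rw [h3, Valuation.map_neg] at h1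
  rw [h1] at h2
  exact lt_irrefl _ h2

/-- a finite dimensional space has only finitely many values -/
theorem fin_vals (h : IsRat K O) (E : Submodule K L) (hE : E.FG) :
    {γ | ∃ e ∈ E, e ≠ 0 ∧ O.valuation e = γ}.Finite := by
  classical
  have : Module.Finite K E := Module.Finite.iff_fg.2 hE
  by_contra hinf
  obtain ⟨t, ht, hcard⟩ := Set.Infinite.exists_subset_card_eq hinf (Module.finrank K E + 1)
  choose! e he h0 hv using fun (γ : O.ValueGroup) (hγ : γ ∈ {γ | ∃ e ∈ E, e ≠ 0 ∧
    O.valuation e = γ}) => hγ
  have h1 : LinearIndependent K fun γ : t => e γ := by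
    refine Res.indep h _ (fun γ => h0 _ (ht γ.2)) fun γ γ' hγ => ?_
    have h2 : O.valuation (e γ) = O.valuation (e γ') := hγ
    rw [hv _ (ht γ.2), hv _ (ht γ'.2)] at h2
    exact Subtype.ext h2
  have h3 : LinearIndependent K fun γ : t => (⟨e γ, he _ (ht γ.2)⟩ : E) :=
    LinearIndependent.of_comp E.subtype h1
  have h4 := h3.fintype_card_le_finrank
  rw [Fintype.card_coe, hcard] at h4
  omega

theorem val_sum_pow [Fact p.Prime] [CharP K p] (h : IsRat K O) {s : ℕ} {b : Fin s → K}
    (hb : PInd p b) (z : Fin s → L) (j : Fin s) :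
    O.valuation (z j) ^ p ≤ O.valuation (∑ j, algebraMap K L (b j) * z j ^ p) := by
  classical
  have : CharP L p := charP_of_injective_algebraMap (algebraMap K L).injective p
  obtain ⟨i, -, hi⟩ := Finset.exists_max_image Finset.univ (fun j => O.valuation (z j))
    ⟨j, Finset.mem_univ j⟩
  have hle : O.valuation (z j) ^ p ≤ O.valuation (z i) ^ p :=
    pow_le_pow_left' (hi j (Finset.mem_univ j)) p
  refine hle.trans ?_
  by_cases hz : z i = 0
  · rw [hz, map_zero, zero_pow (Fact.out : p.Prime).ne_zero]
    exact zero_le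
  have hw : ∀ j, z j / z i ∈ O := fun j => by
    rw [← O.valuation_le_one_iff, map_div₀]
    exact div_le_one_of_le₀ (hi j (Finset.mem_univ j)) zero_le
  choose c hc using fun j => h.2 _ (hw j)
  have hci : c i = 1 := by
    refine Res.unique h (hc i) ?_
    rw [div_self hz, map_one, sub_self, map_zero]
    exact zero_lt_one
  have hne : ∑ j, b j * c j ^ p ≠ 0 := by
    intro h0
    have := congrFun (hb c h0) i
    rw [hci] at this
    exact one_ne_zero this
  have h1 : O.valuation (∑ j, algebraMap K L (b j) * (z j / z i) ^ p -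
      algebraMap K L (∑ j, b j * c j ^ p)) < 1 := by
    rw [map_sum, ← Finset.sum_sub_distrib]
    refine Valuation.map_sum_lt _ one_ne_zero fun j _ => ?_
    have e : algebraMap K L (b j) * (z j / z i) ^ p - algebraMap K L (b j * c j ^ p) =
        algebraMap K L (b j) * (z j / z i - algebraMap K L (c j)) ^ p := by
      rw [sub_pow_char, map_mul, map_pow]
      ring
    rw [e, map_mul, map_pow]
    calc O.valuation (algebraMap K L (b j)) * O.valuation (z j / z i - algebraMap K L (c j)) ^ p
        ≤ 1 * O.valuation (z j / z i - algebraMap K L (c j)) ^ p :=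
          mul_le_mul_left (Res.val_le h _) _
      _ < 1 := by
          rw [one_mul]
          exact pow_lt_one' (hc j) (Fact.out : p.Prime).ne_zero
  have h2 : O.valuation (∑ j, algebraMap K L (b j) * (z j / z i) ^ p) = 1 := by
    have h3 : ∑ j, algebraMap K L (b j) * (z j / z i) ^ p =
        algebraMap K L (∑ j, b j * c j ^ p) + (∑ j, algebraMap K L (b j) * (z j / z i) ^ p -
          algebraMap K L (∑ j, b j * c j ^ p)) := by ring
    rw [h3, Valuation.map_add_eq_of_lt_left]
    · exact val_const h hne
    · rw [val_const h hne]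
      exact h1
  have h4 : ∑ j, algebraMap K L (b j) * z j ^ p =
      z i ^ p * ∑ j, algebraMap K L (b j) * (z j / z i) ^ p := by
    rw [Finset.mul_sum]
    refine Finset.sum_congr rfl fun j _ => ?_
    rw [div_pow]
    field_simp
  rw [h4, map_mul, h2, mul_one, map_pow]

end Res

end

end Pool.Agent.R4A
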