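import Pool.Agent.Lib.MP_4ed7e0_lc.Alg
import Pool.Agent.Lib.MP_4ed7e0_lc.Res

/-!
Module A3 of project R4A: reduction of generators.
-/

set_option autoImplicit false

namespace Pool.Agent.R4A

noncomputable section

universe u

variable {p : ℕ} {K L M : Type u} [Field K] [Field L] [Algebra K L]
  [CommRing M] [Algebra K M]

section Red

variable {O : ValuationSubring L}

/-- the conclusion of `red` -/
def RedGood (p : ℕ) (K : Type u) {L : Type u} [Field K] [Field L] [Algebra K L]
    (O : ValuationSubring L) {n : ℕ} (x : Fin n → L) : Prop :=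
  ∃ (l r : ℕ) (y : Fin l → L) (z : Fin r → L), (∀ i, y i ∈ O) ∧ Indep p K O z ∧
      ∀ w, w ∈ spn p K x ↔ ∃ a ∈ spn p K y, ∃ b ∈ spn p K z, w = a + b

theorem red_zero_mem {n : ℕ} (x : Fin n → L) : (0 : L) ∈ spn p K x :=
  ⟨0, (evs_poly_zero x).symm⟩

theorem red_good_congr {n m : ℕ} {x : Fin n → L} {x' : Fin m → L} (h : spn p K x = spn p K x')
    (hx : RedGood p K O x') : RedGood p K O x := by
  obtain ⟨l, r, y, z, h1, h2, h3⟩ := hx
  exact ⟨l, r, y, z, h1, h2, fun w => by rw [h]; exact h3 w⟩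

theorem red_good_indep {n : ℕ} {x : Fin n → L} (hx : Indep p K O x) : RedGood p K O x := by
  refine ⟨0, n, Fin.elim0, x, fun i => i.elim0, hx, fun w => ⟨fun hw => ?_, ?_⟩⟩
  · exact ⟨0, red_zero_mem _, w, hw, (zero_add w).symm⟩
  · rintro ⟨a, ⟨Q, rfl⟩, b, hb, rfl⟩
    have : evs p Q (Fin.elim0 : Fin 0 → L) = 0 := by
      unfold evs
      exact Finset.sum_eq_zero fun i _ => i.elim0
    rw [this, zero_add]
    exact hb

theorem red_split {n : ℕ} (x : Fin (n + 1) → L) (i : Fin (n + 1)) (w : L) :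
    w ∈ spn p K x ↔ ∃ a : ℕ →₀ K, ∃ u ∈ spn p K (fun j => x (i.succAbove j)),
      w = ev p a (x i) + u := by
  constructor
  · rintro ⟨P, rfl⟩
    refine ⟨P i, _, ⟨fun j => P (i.succAbove j), rfl⟩, ?_⟩
    unfold evs
    exact Fin.sum_univ_succAbove _ i
  · rintro ⟨a, u, ⟨Q, rfl⟩, rfl⟩
    refine ⟨i.insertNth a Q, ?_⟩
    unfold evs
    rw [Fin.sum_univ_succAbove _ i]
    simp only [Fin.insertNth_apply_same, Fin.insertNth_apply_succAbove]

theorem red_good_int {n : ℕ} (x : Fin (n + 1) → L) (i : Fin (n + 1)) (hi : x i ∈ O)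
    (hx : RedGood p K O (fun j => x (i.succAbove j))) : RedGood p K O x := by
  obtain ⟨l, r, y, z, h1, h2, h3⟩ := hx
  refine ⟨l + 1, r, Fin.cons (x i) y, z, ?_, h2, fun w => ?_⟩
  · intro j
    refine Fin.cases ?_ (fun j => ?_) j
    · exact hi
    · exact h1 j
  rw [red_split x i]
  have h4 : ∀ a, a ∈ spn p K (Fin.cons (x i) y : Fin (l + 1) → L) ↔ ∃ c : ℕ →₀ K,
      ∃ u ∈ spn p K y, a = ev p c (x i) + u := by
    intro a
    rw [red_split _ 0]
    simp only [Fin.cons_zero, Fin.succAbove_zero, Fin.cons_succ]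
  constructor
  · rintro ⟨c, u, hu, rfl⟩
    obtain ⟨a, ha, b, hb, rfl⟩ := (h3 u).1 hu
    exact ⟨ev p c (x i) + a, (h4 _).2 ⟨c, a, ha, rfl⟩, b, hb, by ring⟩
  · rintro ⟨a, ha, b, hb, rfl⟩
    obtain ⟨c, u, hu, rfl⟩ := (h4 a).1 ha
    exact ⟨c, u + b, (h3 _).2 ⟨u, hu, b, hb, rfl⟩, by ring⟩

/-- the size of an additive polynomial: `0` or the degree index plus one -/
def redSz (a : ℕ →₀ K) : ℕ := a.support.sup fun k => k + 1

theorem redSz_lt {a : ℕ →₀ K} {d : ℕ} (h : ∀ k, d ≤ k → a k = 0) : redSz a ≤ d := by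
  refine Finset.sup_le fun k hk => ?_
  by_contra hlt
  exact Finsupp.mem_support_iff.1 hk (h k (by omega))

theorem redSz_eq_zero {a : ℕ →₀ K} (h : redSz a = 0) : a = 0 := by
  ext k
  by_contra hk
  have := Finset.le_sup (f := fun k => k + 1) (Finsupp.mem_support_iff.2 hk)
  unfold redSz at h
  omega

theorem redSz_spec {a : ℕ →₀ K} (h : a ≠ 0) : ∃ d, redSz a = d + 1 ∧ a d ≠ 0 ∧
    ∀ k, d < k → a k = 0 := by
  obtain ⟨d, hd, hmax⟩ := a.support.exists_max_image id (Finsupp.support_nonempty_iff.2 h)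
  refine ⟨d, ?_, Finsupp.mem_support_iff.1 hd, fun k hk => ?_⟩
  · refine le_antisymm (Finset.sup_le fun k hk => ?_)
      (Finset.le_sup (f := fun k => k + 1) hd)
    have := hmax k hk
    simp only [id] at this
    omega
  · by_contra hne
    have := hmax k (Finsupp.mem_support_iff.2 hne)
    simp only [id] at this
    omega

/-- the change of generators -/
theorem red_change [Fact p.Prime] [CharP K p] {n : ℕ} (x : Fin n → L) (s : Fin n) (c : Fin n → K)
    (e : Fin n → ℕ) (hc : c s = 0) (P : Fin n → ℕ →₀ K) :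
    ∃ (x' : Fin n → L) (P' : Fin n → ℕ →₀ K), spn p K x' = spn p K x ∧
      evs p P' x' = evs p P x ∧ (∀ i, i ≠ s → P' i = P i) ∧
      ∀ k, (∀ i, k < e i → c i = 0) → P' s k = P s k + ∑ i, P i (k - e i) * c i ^ p ^ (k - e i) := by
  classical
  have hp : p ≠ 0 := (Fact.out : p.Prime).ne_zero
  choose C hC1 hC2 hC3 using fun i => ev_comp (p := p) (P i) (c i) (e i)
  let x' : Fin n → L := fun i => x i - algebraMap K L (c i) * x s ^ p ^ e i
  have hx's : x' s = x s := by simp [x', hc]
  have hpow : ∀ {m : ℕ} (y : Fin m → L) (a : L), a ∈ spn p K y → ∀ k : ℕ, a ^ p ^ k ∈ spn p K y := by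
    intro m y a ha k
    induction k with
    | zero => simpa using ha
    | succ k ih =>
      rw [pow_succ, pow_mul]
      exact spn_pow y ih
  have hle : ∀ {m m' : ℕ} (y : Fin m → L) (y' : Fin m' → L), (∀ i, y i ∈ spn p K y') →
      spn p K y ⊆ spn p K y' := by
    intro m m' y y' h
    exact spn_le (red_zero_mem y') (fun a ha b hb => spn_add y' ha hb)
      (fun c a ha => spn_smul y' c ha) (fun a ha => spn_pow y' ha) h
  refine ⟨x', fun i => if i = s then P i + ∑ j, C j else P i, ?_, ?_, ?_, ?_⟩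
  · refine Set.Subset.antisymm (hle _ _ fun i => ?_) (hle _ _ fun i => ?_)
    · have h1 := spn_smul x (-c i) (hpow x _ (spn_self (p := p) (K := K) x s) (e i))
      have h2 := spn_add x (spn_self (p := p) (K := K) x i) h1
      have h3 : x' i = x i + algebraMap K L (-c i) * x s ^ p ^ e i := by
        simp only [x', map_neg]
        ring
      rw [h3]
      exact h2
    · have h1 := spn_smul x' (c i) (hpow x' _ (spn_self (p := p) (K := K) x' s) (e i))
      have h2 := spn_add x' (spn_self (p := p) (K := K) x' i) h1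
      have h3 : x i = x' i + algebraMap K L (c i) * x' s ^ p ^ e i := by
        rw [hx's]
        simp only [x']
        ring
      rw [h3]
      exact h2
  · have h1 : evs p (fun i => if i = s then P i + ∑ j, C j else P i) x' =
        evs p P x' + ev p (∑ j, C j) (x' s) := by
      unfold evs
      rw [← Finset.add_sum_erase _ _ (Finset.mem_univ s),
        ← Finset.add_sum_erase _ (fun j => ev p (P j) (x' j)) (Finset.mem_univ s)]
      beta_reduce
      rw [if_pos rfl, ev_poly_add]
      have : ∑ i ∈ Finset.univ.erase s, ev p (if i = s then P i + ∑ j, C j else P i) (x' i) =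
          ∑ i ∈ Finset.univ.erase s, ev p (P i) (x' i) := by
        refine Finset.sum_congr rfl fun i hi => ?_
        rw [if_neg (Finset.ne_of_mem_erase hi)]
      rw [this]
      ring
    have h2 : ∀ (F : Finset (Fin n)) (a : L), ev p (∑ j ∈ F, C j) a = ∑ j ∈ F, ev p (C j) a := by
      intro F a
      induction F using Finset.induction_on with
      | empty => simp [ev_poly_zero]
      | insert b F hb ih => rw [Finset.sum_insert hb, Finset.sum_insert hb, ev_poly_add, ih]
    rw [h1, h2, hx's]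
    unfold evs
    rw [← Finset.sum_add_distrib]
    refine Finset.sum_congr rfl fun i _ => ?_
    rw [hC3 i L (x s), ← ev_add]
    congr 1
    simp only [x']
    ring
  · intro i hi
    simp only [if_neg hi]
  · intro k hk
    simp only [if_true]
    rw [Finsupp.add_apply, Finsupp.finsetSum_apply]
    congr 1
    refine Finset.sum_congr rfl fun i _ => ?_
    by_cases hlt : k < e i
    · rw [hC2 i k hlt, hk i hlt, zero_pow (pow_ne_zero _ hp), mul_zero]
    · have h1 : k = (k - e i) + e i := by omega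
      conv_lhs => rw [h1]
      rw [hC1]

omit [Algebra K L] in
theorem red_res_sum {res : L → K} (h0 : res 0 = 0)
    (hadd : ∀ a ∈ O, ∀ b ∈ O, res (a + b) = res a + res b) {ι : Type*} (F : Finset ι) (f : ι → L)
    (hf : ∀ i ∈ F, f i ∈ O) : res (∑ i ∈ F, f i) = ∑ i ∈ F, res (f i) := by
  classical
  induction F using Finset.induction_on with
  | empty => simpa using h0
  | insert a F ha ih =>
    rw [Finset.sum_insert ha, Finset.sum_insert ha,
      hadd _ (hf a (Finset.mem_insert_self _ _)) _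
        (sum_mem fun i hi => hf i (Finset.mem_insert_of_mem hi)),
      ih fun i hi => hf i (Finset.mem_insert_of_mem hi)]

/-- the leading coefficients -/
theorem red_lead [Fact p.Prime] [CharP K p] (h : IsRat K O) {n : ℕ} (x : Fin n → L)
    (hx : ∀ i, x i ∉ O) (P : Fin n → ℕ →₀ K) (hP : P ≠ 0) (hPx : evs p P x ∈ O) :
    ∃ (s : Fin n) (d : Fin n → ℕ) (c : Fin n → K), P s (d s) ≠ 0 ∧
      (∀ i, d s < d i → c i = 0) ∧ (∀ i k, d i < k → P i k = 0) ∧ c s = 1 ∧
      ∑ i, P i (d i) * c i ^ p ^ d i = 0 := by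
  classical
  have hp : 1 < p := (Fact.out : p.Prime).one_lt
  obtain ⟨res, hr1, hr2, hr3, hr4, hr5, hr6⟩ := exists_res h
  have hr0 : res 0 = 0 := by simpa using hr2 0
  have hv : ∀ i, 1 < O.valuation (x i) := by
    intro i
    have := hx i
    rw [← O.valuation_le_one_iff, not_le] at this
    exact this
  -- degrees
  have hd : ∀ i, ∃ d : ℕ, (P i ≠ 0 → P i d ≠ 0) ∧ ∀ k, d < k → P i k = 0 := by
    intro i
    by_cases hi : P i = 0
    · exact ⟨0, fun h => absurd hi h, fun k _ => by rw [hi]; rfl⟩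
    · obtain ⟨d, -, h2, h3⟩ := redSz_spec hi
      exact ⟨d, fun _ => h2, h3⟩
  choose d hd1 hd2 using hd
  set g : Fin n → O.ValueGroup := fun i => O.valuation (x i) ^ p ^ d i with hg
  have hS : (Finset.univ.filter fun i => P i ≠ 0).Nonempty := by
    by_contra hne
    rw [Finset.not_nonempty_iff_eq_empty] at hne
    apply hP
    funext i
    by_contra hi
    have : i ∈ Finset.univ.filter fun i => P i ≠ 0 := by simpa using hi
    rw [hne] at this
    simp at this
  obtain ⟨i0, hi0, hmax⟩ := (Finset.univ.filter fun i => P i ≠ 0).exists_max_image g hS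
  obtain ⟨s, hs, hsmax⟩ := (Finset.univ.filter fun i => P i ≠ 0 ∧ g i = g i0).exists_max_image d
    ⟨i0, by simpa using hi0⟩
  simp only [Finset.mem_filter, Finset.mem_univ, true_and] at hi0 hmax hs hsmax
  have hmax' : ∀ i, P i ≠ 0 → g i ≤ g s := fun i hi => by rw [hs.2]; exact hmax i hi
  have hsmax' : ∀ i, P i ≠ 0 → g i = g s → d i ≤ d s := fun i hi hgi =>
    hsmax i ⟨hi, by rw [hgi, hs.2]⟩
  set u : L := x s ^ p ^ d s with hu
  have hxs0 : x s ≠ 0 := by
    intro h0
    have := hv s
    rw [h0, map_zero] at this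
    exact absurd this (not_lt.2 zero_le_one)
  have hu0 : u ≠ 0 := pow_ne_zero _ hxs0
  have hvu : O.valuation u = g s := by rw [hu, map_pow]
  have hgs : 1 < g s := one_lt_pow₀ (hv s) (pow_ne_zero _ (by omega))
  have hgs0 : g s ≠ 0 := (zero_lt_one.trans hgs).ne'
  -- the value of the relation
  have hval : O.valuation (evs p P x / u) < 1 := by
    rw [map_div₀, hvu, div_lt_one₀ (zero_lt_one.trans hgs)]
    exact lt_of_le_of_lt ((O.valuation_le_one_iff _).2 hPx) hgs
  have hmem : evs p P x / u ∈ O := (O.valuation_le_one_iff _).1 hval.le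
  have hres0 : res (evs p P x / u) = 0 := (hr6 _ hmem).1 hval
  have hpv : ∀ i k, k < d i → O.valuation (x i) ^ p ^ k < g i := fun i k hk =>
    pow_lt_pow_right₀ (hv i) (Nat.pow_lt_pow_right hp hk)
  have hcv : ∀ a : K, O.valuation (algebraMap K L a) ≤ 1 := fun a =>
    (O.valuation_le_one_iff _).2 (h.1 a)
  have hle : ∀ i k, P i ≠ 0 → k ≤ d i → O.valuation (x i) ^ p ^ k ≤ g s := by
    intro i k hi hk
    rcases hk.eq_or_lt with rfl | hk
    · exact hmax' i hi
    · exact (hpv i k hk).le.trans (hmax' i hi)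
  have hlt : ∀ i k, P i ≠ 0 → k ≤ d i → ¬ (k = d i ∧ g i = g s) →
      O.valuation (x i) ^ p ^ k < g s := by
    intro i k hi hk hne
    rcases hk.eq_or_lt with rfl | hk
    · exact lt_of_le_of_ne (hmax' i hi) fun hg => hne ⟨rfl, hg⟩
    · exact (hpv i k hk).trans_le (hmax' i hi)
  -- the terms
  have hterm : ∀ i k, O.valuation (algebraMap K L (P i k) * x i ^ p ^ k / u) ≤
      O.valuation (x i) ^ p ^ k / g s := by
    intro i k
    rw [map_div₀, hvu, map_mul, map_pow]
    refine div_le_div_of_nonneg_right ?_ zero_le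
    calc O.valuation (algebraMap K L (P i k)) * O.valuation (x i) ^ p ^ k
        ≤ 1 * O.valuation (x i) ^ p ^ k := mul_le_mul_left (hcv _) _
      _ = O.valuation (x i) ^ p ^ k := one_mul _
  have hmemt : ∀ i k, P i ≠ 0 → k ≤ d i → algebraMap K L (P i k) * x i ^ p ^ k / u ∈ O := by
    intro i k hi hk
    refine (O.valuation_le_one_iff _).1 ((hterm i k).trans ?_)
    rw [div_le_one₀ (zero_lt_one.trans hgs)]
    exact hle i k hi hk
  have hrest : ∀ i k, P i ≠ 0 → k ≤ d i → ¬ (k = d i ∧ g i = g s) →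
      res (algebraMap K L (P i k) * x i ^ p ^ k / u) = 0 := by
    intro i k hi hk hne
    refine (hr6 _ (hmemt i k hi hk)).1 ((hterm i k).trans_lt ?_)
    rw [div_lt_one₀ (zero_lt_one.trans hgs)]
    exact hlt i k hi hk hne
  have hvx : ∀ i, P i ≠ 0 → g i = g s →
      O.valuation (x i) = O.valuation (x s ^ p ^ (d s - d i)) := by
    intro i hi hgi
    have h1 : O.valuation (x i) ^ p ^ d i = O.valuation (x s ^ p ^ (d s - d i)) ^ p ^ d i := by
      rw [← map_pow O.valuation (x s ^ p ^ (d s - d i)), ← pow_mul, ← pow_add,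
        Nat.sub_add_cancel (hsmax' i hi hgi), map_pow]
      exact hgi
    exact (pow_left_inj₀ zero_le zero_le (pow_ne_zero _ (by omega))).1 h1
  have hmemx : ∀ i, P i ≠ 0 → g i = g s → x i / x s ^ p ^ (d s - d i) ∈ O := by
    intro i hi hgi
    refine (O.valuation_le_one_iff _).1 ?_
    rw [map_div₀, hvx i hi hgi, div_self]
    rw [map_ne_zero]
    exact pow_ne_zero _ hxs0
  let c : Fin n → K := fun i => if P i ≠ 0 ∧ g i = g s then res (x i / x s ^ p ^ (d s - d i)) else 0
  have hreste : ∀ i, P i ≠ 0 → g i = g s →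
      res (algebraMap K L (P i (d i)) * x i ^ p ^ d i / u) = P i (d i) * c i ^ p ^ d i := by
    intro i hi hgi
    have h1 : algebraMap K L (P i (d i)) * x i ^ p ^ d i / u =
        algebraMap K L (P i (d i)) * (x i / x s ^ p ^ (d s - d i)) ^ p ^ d i := by
      rw [div_pow, ← pow_mul, ← pow_add, Nat.sub_add_cancel (hsmax' i hi hgi), mul_div_assoc]
    rw [h1, hr4 _ (h.1 _) _ (pow_mem (hmemx i hi hgi) _), hr2, hr5 _ (hmemx i hi hgi)]
    simp only [c, if_pos (⟨hi, hgi⟩ : P i ≠ 0 ∧ g i = g s)]
  have hcs : c s = 1 := by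
    simp only [c, if_pos (⟨hs.1, rfl⟩ : P s ≠ 0 ∧ g s = g s)]
    rw [Nat.sub_self, pow_zero, pow_one, div_self hxs0, ← map_one (algebraMap K L), hr2]
  refine ⟨s, d, c, hd1 s hs.1, ?_, hd2, hcs, ?_⟩
  · intro i hi
    simp only [c]
    refine if_neg fun hcon => ?_
    have := hsmax' i hcon.1 hcon.2
    omega
  rw [← hres0]
  have h1 : evs p P x / u =
      ∑ i, ∑ k ∈ (P i).support, algebraMap K L (P i k) * x i ^ p ^ k / u := by
    unfold evs ev Finsupp.sum
    rw [Finset.sum_div]
    exact Finset.sum_congr rfl fun i _ => Finset.sum_div _ _ _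
  have hsup : ∀ i, ∀ k ∈ (P i).support, P i ≠ 0 ∧ k ≤ d i := by
    intro i k hk
    have hk' := Finsupp.mem_support_iff.1 hk
    refine ⟨fun h0 => hk' (by rw [h0]; rfl), ?_⟩
    by_contra hlt
    exact hk' (hd2 i k (by omega))
  rw [h1, red_res_sum hr0 hr3 _ _ fun i _ => sum_mem fun k hk =>
    hmemt i k (hsup i k hk).1 (hsup i k hk).2]
  refine Finset.sum_congr rfl fun i _ => ?_
  rw [red_res_sum hr0 hr3 _ _ fun k hk => hmemt i k (hsup i k hk).1 (hsup i k hk).2]
  by_cases hi : P i = 0
  · rw [hi]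
    simp
  by_cases hgi : g i = g s
  · rw [Finset.sum_eq_single_of_mem (d i) (Finsupp.mem_support_iff.2 (hd1 i hi))]
    · exact (hreste i hi hgi).symm
    · intro k hk hne
      exact hrest i k hi (hsup i k hk).2 fun hcon => hne hcon.1
  · have hci : c i = 0 := if_neg fun hcon => hgi hcon.2
    rw [hci, zero_pow (pow_ne_zero _ (by omega)), mul_zero]
    exact (Finset.sum_eq_zero fun k hk => hrest i k hi (hsup i k hk).2 fun hcon => hgi hcon.2).symm

theorem red_step [Fact p.Prime] [CharP K p] (h : IsRat K O) {n : ℕ}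
    (IH : ∀ x : Fin n → L, RedGood p K O x) : ∀ (N : ℕ) (x : Fin (n + 1) → L)
    (P : Fin (n + 1) → ℕ →₀ K), P ≠ 0 → evs p P x ∈ O → ∑ i, redSz (P i) ≤ N →
      RedGood p K O x := by
  classical
  have hp : p ≠ 0 := (Fact.out : p.Prime).ne_zero
  intro N
  induction N with
  | zero =>
    intro x P hP _ hN
    exfalso
    apply hP
    funext i
    have := Finset.sum_eq_zero_iff.1 (Nat.le_zero.1 hN) i (Finset.mem_univ i)
    exact redSz_eq_zero this
  | succ N ihN =>
    intro x P hP hPx hN
    by_cases hx : ∃ i, x i ∈ O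
    · obtain ⟨i, hi⟩ := hx
      exact red_good_int x i hi (IH _)
    push Not at hx
    obtain ⟨s, d, c, h1, h2, h3, h4, h5⟩ := red_lead h x hx P hP hPx
    have hc's : (fun i => if i = s then 0 else c i) s = 0 := if_pos rfl
    obtain ⟨x', P', hx', hP', hne, hPs⟩ := red_change x s (fun i => if i = s then 0 else c i)
      (fun i => d s - d i) hc's P
    have hPs0 : ∀ k, d s ≤ k → P' s k = 0 := by
      intro k hk
      rw [hPs k fun i hi => by omega]
      rcases hk.eq_or_lt with rfl | hk
      · refine Eq.trans ?_ h5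
        rw [← Finset.add_sum_erase _ _ (Finset.mem_univ s),
          ← Finset.add_sum_erase _ (fun i => P i (d i) * c i ^ p ^ d i) (Finset.mem_univ s), if_pos rfl,
          zero_pow (pow_ne_zero _ hp), mul_zero, zero_add, h4, one_pow, mul_one]
        congr 1
        refine Finset.sum_congr rfl fun i hi => ?_
        rw [if_neg (Finset.ne_of_mem_erase hi)]
        by_cases hdi : d s < d i
        · rw [h2 i hdi, zero_pow (pow_ne_zero _ hp), zero_pow (pow_ne_zero _ hp), mul_zero,
            mul_zero]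
        · rw [show d s - (d s - d i) = d i by omega]
      · rw [h3 s k hk, zero_add]
        refine Finset.sum_eq_zero fun i _ => ?_
        by_cases hi : (if i = s then 0 else c i) = 0
        · rw [hi, zero_pow (pow_ne_zero _ hp), mul_zero]
        · have hdi : ¬ d s < d i := by
            intro hcon
            apply hi
            rw [h2 i hcon, ite_self]
          rw [h3 i _ (by omega), zero_mul]
    have hlt : redSz (P' s) < redSz (P s) := by
      have e1 := redSz_lt hPs0
      have e2 := Finset.le_sup (f := fun k => k + 1) (Finsupp.mem_support_iff.2 h1)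
      change d s + 1 ≤ redSz (P s) at e2
      omega
    have hsum : ∑ i, redSz (P' i) < ∑ i, redSz (P i) := by
      refine Finset.sum_lt_sum (fun i _ => ?_) ⟨s, Finset.mem_univ s, hlt⟩
      by_cases hi : i = s
      · rw [hi]
        exact hlt.le
      · rw [hne i hi]
    have hP'0 : P' ≠ 0 := by
      intro h0
      have e1 : ∀ i, i ≠ s → P i = 0 := fun i hi => by rw [← hne i hi, h0]; rfl
      rw [Finset.sum_eq_single s (fun i _ hi => by rw [e1 i hi]; simp) (by simp), h4, one_pow,
        mul_one] at h5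
      exact h1 h5
    have hP'x : evs p P' x' ∈ O := by
      rw [hP']
      exact hPx
    exact red_good_congr hx'.symm (ihN x' P' hP'0 hP'x (by omega))

theorem red [Fact p.Prime] [CharP K p] (h : IsRat K O) {n : ℕ} (x : Fin n → L) :
    ∃ (l r : ℕ) (y : Fin l → L) (z : Fin r → L), (∀ i, y i ∈ O) ∧ Indep p K O z ∧
      ∀ w, w ∈ spn p K x ↔ ∃ a ∈ spn p K y, ∃ b ∈ spn p K z, w = a + b := by
  have key : ∀ (n : ℕ) (x : Fin n → L), RedGood p K O x := by
    intro n
    induction n with
    | zero =>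
      intro x
      exact red_good_indep fun P _ => Subsingleton.elim _ _
    | succ n ih =>
      intro x
      by_cases hx : Indep p K O x
      · exact red_good_indep hx
      · unfold Indep at hx
        push Not at hx
        obtain ⟨P, hP1, hP2⟩ := hx
        exact red_step h ih _ x P hP2 hP1 le_rfl
  exact key n x

end Red

end

end Pool.Agent.R4A
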