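import Pool.Agent.Lib.MP_4ed7e0_lc.Ctx

/-!
MP_4ed7e0_lc, project R4A, module A4 HEN: power series solutions of additive systems whose linear
parts are linearly independent.
-/

set_option autoImplicit false

namespace Pool.Agent.R4A

noncomputable section

universe u

variable {p : ℕ} {K L M : Type u} [Field K] [Field L] [Algebra K L]
  [CommRing M] [Algebra K M]

section Hen

/-- coefficients of `p ^ e`-th powers of power series over a field of characteristic `p` -/
theorem hen_coeff_pow [Fact p.Prime] [CharP K p] (z : PowerSeries K) (e n : ℕ) :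
    PowerSeries.coeff n (z ^ p ^ e) =
      if p ^ e ∣ n then PowerSeries.coeff (n / p ^ e) z ^ p ^ e else 0 := by
  have hp : 0 < p ^ e := pow_pos (Fact.out : p.Prime).pos e
  have : CharP (PowerSeries K) p :=
    charP_of_injective_algebraMap (algebraMap K (PowerSeries K)).injective p
  set f : Polynomial K := PowerSeries.trunc (n + 1) z with hf
  have h1 : (PowerSeries.X : PowerSeries K) ^ (n + 1) ∣ z - (f : PowerSeries K) := by
    rw [PowerSeries.X_pow_dvd_iff]
    intro k hk
    rw [map_sub, Polynomial.coeff_coe, hf, PowerSeries.coeff_trunc, if_pos hk, sub_self]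
  obtain ⟨w, hw⟩ := h1
  have h2 : z = (f : PowerSeries K) + PowerSeries.X ^ (n + 1) * w := by
    rw [← hw]
    ring
  have h3 : z ^ p ^ e = ((f ^ p ^ e : Polynomial K) : PowerSeries K) +
      PowerSeries.X ^ (p ^ e * (n + 1)) * w ^ p ^ e := by
    conv_lhs => rw [h2]
    rw [add_pow_char_pow, mul_pow, ← pow_mul, Polynomial.coe_pow, mul_comm (n + 1) (p ^ e)]
  rw [h3, map_add, Polynomial.coeff_coe, PowerSeries.coeff_X_pow_mul', if_neg (by nlinarith),
    add_zero]
  have h4 : f ^ p ^ e = Polynomial.map (iterateFrobenius K p e) (Polynomial.expand K (p ^ e) f) :=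
    (Polynomial.map_iterateFrobenius_expand p f e).symm
  rw [h4, Polynomial.coeff_map, Polynomial.coeff_expand hp]
  split_ifs with hd
  · rw [iterateFrobenius_def, hf, PowerSeries.coeff_trunc,
      if_pos (Nat.lt_succ_of_le (Nat.div_le_self _ _))]
  · rw [map_zero]

/-- coefficients of the value of an additive polynomial at a power series -/
theorem hen_coeff_ev [Fact p.Prime] [CharP K p] {D : ℕ} (a : ℕ →₀ K) (ha : ∀ k, D < k → a k = 0)
    (z : PowerSeries K) (n : ℕ) :
    PowerSeries.coeff n (ev p a z) = a 0 * PowerSeries.coeff n z +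
      ∑ e ∈ Finset.range D, a (e + 1) *
        if p ^ (e + 1) ∣ n then PowerSeries.coeff (n / p ^ (e + 1)) z ^ p ^ (e + 1) else 0 := by
  have h1 : ev p a z = ∑ k ∈ Finset.range (D + 1),
      algebraMap K (PowerSeries K) (a k) * z ^ p ^ k := by
    rw [ev, Finsupp.sum_of_support_subset a (s := Finset.range (D + 1))]
    · intro k hk
      rw [Finset.mem_range]
      by_contra h
      exact Finsupp.mem_support_iff.1 hk (ha k (by omega))
    · intro k _
      rw [map_zero, zero_mul]
  rw [h1, map_sum, Finset.sum_range_succ', add_comm]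
  congr 1
  · rw [pow_zero, pow_one, PowerSeries.algebraMap_apply, Algebra.algebraMap_self, RingHom.id_apply,
      PowerSeries.coeff_C_mul]
  · refine Finset.sum_congr rfl fun e _ => ?_
    rw [PowerSeries.algebraMap_apply, Algebra.algebraMap_self, RingHom.id_apply,
      PowerSeries.coeff_C_mul, hen_coeff_pow]

/-- the coefficients of the solution -/
def hen_seq (p : ℕ) [Fact p.Prime] {l m : ℕ} (R : Fin m → Fin l → ℕ →₀ K) (D : ℕ)
    (s : (Fin m → K) → Fin l → K) (u : Fin l → K) : ℕ → Fin l → K
  | 0 => 0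
  | n + 1 => (if n = 0 then u else 0) - s fun j => ∑ i, ∑ e ∈ Finset.range D, R j i (e + 1) *
      if p ^ (e + 1) ∣ n + 1 then hen_seq p R D s u ((n + 1) / p ^ (e + 1)) i ^ p ^ (e + 1) else 0
  termination_by n => n
  decreasing_by
    exact Nat.div_lt_self (Nat.succ_pos n)
      (Nat.one_lt_pow (Nat.succ_ne_zero e) (Fact.out : p.Prime).one_lt)

/-- solutions of additive equations with linearly independent linear parts -/
theorem hensel [Fact p.Prime] [CharP K p] {l m : ℕ} (R : Fin m → Fin l → ℕ →₀ K)
    (hR : LinearIndependent K fun j : Fin m => fun i : Fin l => R j i 0) (u : Fin l → K)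
    (hu : ∀ j, ∑ i, R j i 0 * u i = 0) : ∃ τ : Fin l → PowerSeries K,
      (∀ i, PowerSeries.coeff 0 (τ i) = 0) ∧ (∀ i, PowerSeries.coeff 1 (τ i) = u i) ∧
      ∀ j, evs p (R j) τ = 0 := by
  classical
  have hp : 1 < p := (Fact.out : p.Prime).one_lt
  -- a bound for the exponents
  obtain ⟨D, hD⟩ : ∃ D : ℕ, ∀ j i k, D < k → R j i k = 0 := by
    refine ⟨Finset.univ.sup fun j => Finset.univ.sup fun i => (R j i).support.sup id, ?_⟩
    intro j i k hk
    by_contra h
    have h1 : k ≤ (R j i).support.sup id :=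
      Finset.le_sup (f := id) (Finsupp.mem_support_iff.2 h)
    have h2 : (R j i).support.sup id ≤ Finset.univ.sup fun i => (R j i).support.sup id :=
      Finset.le_sup (f := fun i => (R j i).support.sup id) (Finset.mem_univ i)
    have h3 : (Finset.univ.sup fun i => (R j i).support.sup id) ≤
        Finset.univ.sup fun j => Finset.univ.sup fun i => (R j i).support.sup id :=
      Finset.le_sup (f := fun j => Finset.univ.sup fun i => (R j i).support.sup id)
        (Finset.mem_univ j)
    omega
  -- a right inverse of the linear part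
  obtain ⟨s, hs, hs0⟩ : ∃ s : (Fin m → K) → Fin l → K,
      (∀ v j, ∑ i, R j i 0 * s v i = v j) ∧ s 0 = 0 := by
    set A : Matrix (Fin m) (Fin l) K := Matrix.of fun j i => R j i 0 with hA
    have h1 : LinearIndependent K A.row := hR
    have h2 : A.mulVecLin.range = ⊤ := by
      apply Submodule.eq_top_of_finrank_eq
      rw [Module.finrank_fin_fun, ← Matrix.rank, h1.rank_matrix, Fintype.card_fin]
    obtain ⟨s, hs⟩ := A.mulVecLin.exists_rightInverse_of_surjective h2
    exact ⟨s, fun v j => congrFun (LinearMap.congr_fun hs v) j, map_zero s⟩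
  have h00 : hen_seq p R D s u 0 = 0 := by
    rw [hen_seq]
  -- the general step
  have hstep : ∀ n i, hen_seq p R D s u (n + 1) i = (if n = 0 then u i else 0) -
      s (fun j => ∑ i, ∑ e ∈ Finset.range D, R j i (e + 1) *
        if p ^ (e + 1) ∣ n + 1 then
          hen_seq p R D s u ((n + 1) / p ^ (e + 1)) i ^ p ^ (e + 1) else 0) i := by
    intro n i
    rw [hen_seq, Pi.sub_apply]
    congr 1
    split_ifs <;> rfl
  refine ⟨fun i => PowerSeries.mk fun n => hen_seq p R D s u n i, ?_, ?_, ?_⟩
  · intro i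
    rw [PowerSeries.coeff_mk, h00]
    rfl
  · intro i
    rw [PowerSeries.coeff_mk]
    rw [show (1 : ℕ) = 0 + 1 from rfl, hstep, if_pos rfl, sub_eq_self]
    have h1 : ∀ (i : Fin l) (e : ℕ), (if p ^ (e + 1) ∣ 0 + 1 then
        hen_seq p R D s u ((0 + 1) / p ^ (e + 1)) i ^ p ^ (e + 1) else 0) = 0 := by
      intro i e
      rw [if_neg]
      intro h
      have h2 := Nat.le_of_dvd (by omega) h
      have h3 : 1 < p ^ (e + 1) := Nat.one_lt_pow (Nat.succ_ne_zero e) hp
      omega
    simp only [h1, mul_zero, Finset.sum_const_zero]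
    exact congrFun hs0 i
  · intro j
    ext n
    rw [map_zero, evs, map_sum]
    rw [Finset.sum_congr rfl fun i _ => hen_coeff_ev (R j i) (hD j i) _ n]
    simp only [PowerSeries.coeff_mk]
    rw [Finset.sum_add_distrib]
    rcases n with _ | n
    · rw [h00]
      have h1 : ∀ (i : Fin l) (e : ℕ), (if p ^ (e + 1) ∣ 0 then
          hen_seq p R D s u (0 / p ^ (e + 1)) i ^ p ^ (e + 1) else 0) = 0 := by
        intro i e
        rw [if_pos (dvd_zero _), Nat.zero_div, h00, Pi.zero_apply,
          zero_pow (pow_ne_zero _ (by omega))]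
      simp only [h1, Pi.zero_apply, mul_zero, Finset.sum_const_zero, add_zero]
    · have h2 : ∑ i, R j i 0 * hen_seq p R D s u (n + 1) i =
          - ∑ i, ∑ e ∈ Finset.range D, R j i (e + 1) * if p ^ (e + 1) ∣ n + 1 then
              hen_seq p R D s u ((n + 1) / p ^ (e + 1)) i ^ p ^ (e + 1) else 0 := by
        simp only [hstep, mul_sub, Finset.sum_sub_distrib, hs]
        rw [sub_eq_neg_self]
        split_ifs
        · exact hu j
        · simp
      rw [h2, neg_add_cancel]

/-- the linear term of the value of an additive polynomial -/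
theorem coeff_one_evs [Fact p.Prime] {l : ℕ} (Q : Fin l → ℕ →₀ K) (τ : Fin l → PowerSeries K)
    (h : ∀ i, PowerSeries.coeff 0 (τ i) = 0) :
    PowerSeries.coeff 0 (evs p Q τ) = 0 ∧
    PowerSeries.coeff 1 (evs p Q τ) = ∑ i, Q i 0 * PowerSeries.coeff 1 (τ i) := by
  have hp : 1 < p := (Fact.out : p.Prime).one_lt
  have hc : ∀ (i : Fin l) (k n : ℕ), n < p ^ k → PowerSeries.coeff n (τ i ^ p ^ k) = 0 := by
    intro i k n hn
    apply PowerSeries.coeff_of_lt_order
    have h1 : (1 : ℕ∞) ≤ (τ i).order := by
      apply PowerSeries.le_order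
      intro j hj
      have : j = 0 := by
        have : (j : ℕ∞) < ((1 : ℕ) : ℕ∞) := hj
        rw [Nat.cast_lt] at this
        omega
      rw [this, h i]
    have h2 : (p ^ k) • (τ i).order ≤ (τ i ^ p ^ k).order := PowerSeries.le_order_pow _ _
    have h3 : ((p ^ k : ℕ) : ℕ∞) ≤ (p ^ k) • (τ i).order := by
      rw [nsmul_eq_mul]
      calc ((p ^ k : ℕ) : ℕ∞) = ((p ^ k : ℕ) : ℕ∞) * 1 := (mul_one _).symm
        _ ≤ _ := mul_le_mul_right h1 _
    exact lt_of_lt_of_le (Nat.cast_lt.2 hn) (h3.trans h2)
  have he : ∀ (i : Fin l) (n : ℕ), n ≤ 1 → PowerSeries.coeff n (ev p (Q i) (τ i)) =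
      Q i 0 * PowerSeries.coeff n (τ i) := by
    intro i n hn
    rw [ev, Finsupp.sum, map_sum]
    have h1 : ∀ k, PowerSeries.coeff n (algebraMap K (PowerSeries K) (Q i k) * τ i ^ p ^ k) =
        Q i k * PowerSeries.coeff n (τ i ^ p ^ k) := by
      intro k
      rw [PowerSeries.algebraMap_apply, Algebra.algebraMap_self, RingHom.id_apply,
        PowerSeries.coeff_C_mul]
    simp only [h1]
    by_cases h0 : 0 ∈ (Q i).support
    · rw [Finset.sum_eq_single_of_mem 0 h0]
      · rw [pow_zero, pow_one]
      · intro k _ hk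
        rw [hc i k n, mul_zero]
        exact lt_of_le_of_lt hn (Nat.one_lt_pow hk hp)
    · rw [Finsupp.notMem_support_iff.1 h0, zero_mul]
      apply Finset.sum_eq_zero
      intro k hk
      have hk0 : k ≠ 0 := by
        rintro rfl
        exact h0 hk
      rw [hc i k n, mul_zero]
      exact lt_of_le_of_lt hn (Nat.one_lt_pow hk0 hp)
  constructor
  · rw [evs, map_sum]
    apply Finset.sum_eq_zero
    intro i _
    rw [he i 0 (by omega), h i, mul_zero]
  · rw [evs, map_sum]
    exact Finset.sum_congr rfl fun i _ => he i 1 le_rfl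

end Hen
end

end Pool.Agent.R4A
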