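import Pool.Agent.Lib.MP_4ed7e0_lc.Ctx

/-!
MP_4ed7e0_lc, project R4A, module A5 PIN: additive polynomials without linear part are sums of
`b * (p-th power)`.
-/

set_option autoImplicit false

namespace Pool.Agent.R4A

noncomputable section

universe u

variable {p : ℕ} {K L M : Type u} [Field K] [Field L] [Algebra K L]
  [CommRing M] [Algebra K M]

/-! ### A5 Pin.lean: additive polynomials without linear part -/
section Pin

/-- sums of `p`-th powers in algebras over a field of characteristic `p` -/
theorem pin_sum_pow [Fact p.Prime] [CharP K p] {N : Type u} [CommRing N] [Algebra K N] {ι : Type}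
    (s : Finset ι) (f : ι → N) : (∑ i ∈ s, f i) ^ p = ∑ i ∈ s, f i ^ p := by
  rcases subsingleton_or_nontrivial N with hN | hN
  · exact Subsingleton.elim _ _
  · have : CharP N p := charP_of_injective_algebraMap (algebraMap K N).injective p
    exact sum_pow_char p s f

/-- values of additive polynomials of bounded degree -/
theorem pin_ev {D : ℕ} (a : ℕ →₀ K) (ha : ∀ k, D < k → a k = 0) {N : Type u} [CommRing N]
    [Algebra K N] (x : N) :
    ev p a x = ∑ k ∈ Finset.range (D + 1), algebraMap K N (a k) * x ^ p ^ k := by
  rw [ev, Finsupp.sum_of_support_subset a (s := Finset.range (D + 1))]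
  · intro k hk
    rw [Finset.mem_range]
    by_contra h
    exact Finsupp.mem_support_iff.1 hk (ha k (by omega))
  · intro k _
    rw [map_zero, zero_mul]

open scoped Classical in
/-- an additive polynomial without linear part is a combination of `p`-th powers -/
theorem pin [Fact p.Prime] [CharP K p] {l D : ℕ} (Q : Fin l → ℕ →₀ K) (h0 : ∀ i, Q i 0 = 0)
    (hD : DegLe D Q) : ∃ (s : ℕ) (b : Fin s → K) (Q' : Fin s → Fin l → ℕ →₀ K), PInd p b ∧
      (∀ j, DegLe D (Q' j)) ∧ ∀ (N : Type u) [CommRing N] [Algebra K N] (x : Fin l → N),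
        evs p Q x = ∑ j, algebraMap K N (b j) * evs p (Q' j) x ^ p := by
  have hp : p ≠ 0 := (Fact.out : p.Prime).ne_zero
  set F : Subfield K := (frobenius K p).fieldRange with hF
  have hFp : ∀ a : F, ∃ c : K, c ^ p = a := by
    intro a
    obtain ⟨c, hc⟩ := a.2
    exact ⟨c, hc⟩
  choose rt hrt using hFp
  have hrt0 : rt 0 = 0 := by
    have := hrt 0
    rw [ZeroMemClass.coe_zero] at this
    exact pow_eq_zero_iff hp |>.1 this
  set B := Module.Basis.ofVectorSpace F K with hB
  set T : Finset (Module.Basis.ofVectorSpaceIndex F K) :=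
    Finset.univ.biUnion fun i : Fin l => (Finset.range (D + 1)).biUnion fun k =>
      (B.repr (Q i k)).support with hT
  set e := T.equivFin.symm with he
  set b : Fin T.card → K := fun j => B (e j) with hb
  -- independence
  have hind : PInd p b := by
    intro c hc
    have h1 : LinearIndependent F fun j : Fin T.card => B (e j) :=
      B.linearIndependent.comp _ (Subtype.val_injective.comp e.injective)
    have h2 : ∑ j, (⟨c j ^ p, ⟨c j, rfl⟩⟩ : F) • B (e j) = 0 := by
      rw [← hc]
      refine Finset.sum_congr rfl fun j _ => ?_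
      rw [Subfield.smul_def, smul_eq_mul, mul_comm]
    funext j
    have h3 := Fintype.linearIndependent_iff.1 h1 _ h2 j
    have h4 : c j ^ p = 0 := congrArg Subtype.val h3
    exact pow_eq_zero_iff hp |>.1 h4
  -- expansions
  have hexp : ∀ i k, k ≤ D → Q i k = ∑ j, b j * rt (B.repr (Q i k) (e j)) ^ p := by
    intro i k hk
    have h1 : ∑ t ∈ T, B.repr (Q i k) t • B t = Q i k := by
      conv_rhs => rw [← B.linearCombination_repr (Q i k), Finsupp.linearCombination_apply]
      symm
      apply Finsupp.sum_of_support_subset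
      · intro t ht
        rw [hT, Finset.mem_biUnion]
        refine ⟨i, Finset.mem_univ _, ?_⟩
        rw [Finset.mem_biUnion]
        exact ⟨k, Finset.mem_range.2 (by omega), ht⟩
      · intro t _
        rw [zero_smul]
    conv_lhs => rw [← h1]
    rw [← Finset.sum_coe_sort T, ← e.sum_comp]
    refine Finset.sum_congr rfl fun j _ => ?_
    rw [hrt, Subfield.smul_def, smul_eq_mul, mul_comm]
  refine ⟨T.card, b, fun j i => Finsupp.onFinset (Finset.range (D + 1))
    (fun k => if k < D then rt (B.repr (Q i (k + 1)) (e j)) else 0) ?_, hind, ?_, ?_⟩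
  · intro k hk
    rw [Finset.mem_range]
    by_contra h
    apply hk
    rw [if_neg (by omega)]
  · intro j i k hk
    rw [Finsupp.onFinset_apply, if_neg (by omega)]
  · intro N _ _ x
    have h1 : ∀ j : Fin T.card, evs p (fun i => Finsupp.onFinset (Finset.range (D + 1))
        (fun k => if k < D then rt (B.repr (Q i (k + 1)) (e j)) else 0) (by
          intro k hk
          rw [Finset.mem_range]
          by_contra h
          apply hk
          rw [if_neg (by omega)])) x =
        ∑ i, ∑ k ∈ Finset.range D,
          algebraMap K N (rt (B.repr (Q i (k + 1)) (e j))) * x i ^ p ^ k := by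
      intro j
      rw [evs]
      refine Finset.sum_congr rfl fun i _ => ?_
      rw [pin_ev (D := D) _ (fun k hk => by rw [Finsupp.onFinset_apply, if_neg (by omega)]),
        Finset.sum_range_succ]
      simp only [Finsupp.onFinset_apply]
      rw [if_neg (lt_irrefl _), map_zero, zero_mul, add_zero]
      refine Finset.sum_congr rfl fun k hk => ?_
      rw [if_pos (Finset.mem_range.1 hk)]
    simp only [h1]
    have h2 : evs p Q x = ∑ i, ∑ k ∈ Finset.range D,
        algebraMap K N (Q i (k + 1)) * x i ^ p ^ (k + 1) := by
      rw [evs]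
      refine Finset.sum_congr rfl fun i _ => ?_
      rw [pin_ev (D := D) _ (fun k hk => hD i k hk), Finset.sum_range_succ', h0, map_zero,
        zero_mul, add_zero]
    rw [h2]
    have h3 : ∀ j : Fin T.card, algebraMap K N (b j) * (∑ i, ∑ k ∈ Finset.range D,
        algebraMap K N (rt (B.repr (Q i (k + 1)) (e j))) * x i ^ p ^ k) ^ p =
        ∑ i, ∑ k ∈ Finset.range D, algebraMap K N (b j * rt (B.repr (Q i (k + 1)) (e j)) ^ p) *
          x i ^ p ^ (k + 1) := by
      intro j
      rw [pin_sum_pow (K := K), Finset.mul_sum]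
      refine Finset.sum_congr rfl fun i _ => ?_
      rw [pin_sum_pow (K := K), Finset.mul_sum]
      refine Finset.sum_congr rfl fun k _ => ?_
      rw [mul_pow, map_mul, map_pow, ← pow_mul, ← pow_succ, mul_assoc]
    rw [Finset.sum_congr rfl fun j _ => h3 j]
    rw [Finset.sum_comm (s := Finset.univ (α := Fin T.card)) (t := Finset.univ (α := Fin l))]
    refine Finset.sum_congr rfl fun i _ => ?_
    rw [Finset.sum_comm]
    refine Finset.sum_congr rfl fun k hk => ?_
    rw [← Finset.sum_mul, ← map_sum, ← hexp i (k + 1) (Finset.mem_range.1 hk)]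

/-- coefficients of `p`-th powers of power series -/
theorem pin_coeff_pow [Fact p.Prime] [CharP K p] (z : PowerSeries K) (n : ℕ) :
    PowerSeries.coeff (p * n) (z ^ p) = PowerSeries.coeff n z ^ p := by
  have hp : 0 < p := (Fact.out : p.Prime).pos
  have : CharP (PowerSeries K) p :=
    charP_of_injective_algebraMap (algebraMap K (PowerSeries K)).injective p
  set f : Polynomial K := PowerSeries.trunc (n + 1) z with hf
  have h1 : (PowerSeries.X : PowerSeries K) ^ (n + 1) ∣ z - (f : PowerSeries K) := by
    rw [PowerSeries.X_pow_dvd_iff]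
    intro k hk
    rw [map_sub, Polynomial.coeff_coe, hf, PowerSeries.coeff_trunc, if_pos hk, sub_self]
  obtain ⟨w, hw⟩ := h1
  have h2 : z = (f : PowerSeries K) + PowerSeries.X ^ (n + 1) * w := by
    rw [← hw]
    ring
  have h3 : z ^ p = ((f ^ p : Polynomial K) : PowerSeries K) +
      PowerSeries.X ^ (p * (n + 1)) * w ^ p := by
    conv_lhs => rw [h2]
    rw [add_pow_char, mul_pow, ← pow_mul, Polynomial.coe_pow, mul_comm (n + 1) p]
  rw [h3, map_add, Polynomial.coeff_coe, PowerSeries.coeff_X_pow_mul', if_neg (by nlinarith),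
    add_zero]
  have h4 : f ^ p = Polynomial.map (frobenius K p) (Polynomial.expand K p f) :=
    (Polynomial.map_frobenius_expand p f).symm
  rw [h4, Polynomial.coeff_map, mul_comm p n, Polynomial.coeff_expand_mul hp, frobenius_def, hf,
    PowerSeries.coeff_trunc, if_pos (Nat.lt_succ_self n)]

/-- separability of power series over `K` -/
theorem pin_series [Fact p.Prime] [CharP K p] {s : ℕ} {b : Fin s → K} (hb : PInd p b)
    (z : Fin s → PowerSeries K) (h : ∑ j, algebraMap K (PowerSeries K) (b j) * z j ^ p = 0) :
    z = 0 := by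
  funext j
  ext n
  have h1 : ∑ j, b j * PowerSeries.coeff n (z j) ^ p = 0 := by
    have h2 := congrArg (PowerSeries.coeff (p * n)) h
    rw [map_sum, map_zero] at h2
    rw [← h2]
    refine Finset.sum_congr rfl fun j _ => ?_
    rw [← pin_coeff_pow, PowerSeries.algebraMap_apply]
    simp
  exact congrFun (hb _ h1) j

end Pin

end

end Pool.Agent.R4A
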