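import Pool.Agent.Lib.MP_4ed7e0_lc.Alg
import Pool.Agent.Lib.MP_4ed7e0_lc.Res
import Pool.Agent.Lib.MP_4ed7e0_lc.Hen
import Pool.Agent.Lib.MP_4ed7e0_lc.Pin

/-!
Project R4A (MP_4ed7e0_lc), module A6: power series points separating values.
-/

set_option autoImplicit false

namespace Pool.Agent.R4A

noncomputable section

universe u

variable {p : ℕ} {K L M : Type u} [Field K] [Field L] [Algebra K L]
  [CommRing M] [Algebra K M]

/-! ### A6 Sat.lean -/
section Sat

variable {O : ValuationSubring L}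

theorem sat_evs_sub {n : ℕ} (P Q : Fin n → ℕ →₀ K) (x : Fin n → M) :
    evs p (P - Q) x = evs p P x - evs p Q x := by
  have h := evs_poly_add (p := p) (P - Q) Q x
  rw [sub_add_cancel] at h
  rw [h]
  ring

theorem sat_evs_sum {n : ℕ} {ι : Type*} (s : Finset ι) (c : ι → K) (P : ι → Fin n → ℕ →₀ K)
    (x : Fin n → M) :
    evs p (∑ j ∈ s, c j • P j) x = ∑ j ∈ s, algebraMap K M (c j) * evs p (P j) x := by
  classical
  induction s using Finset.induction_on with
  | empty => simpa using evs_poly_zero (p := p) (K := K) x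
  | insert a s ha ih =>
    rw [Finset.sum_insert ha, Finset.sum_insert ha, evs_poly_add, evs_poly_smul, ih]

/-- the linear parts -/
def satLin (K : Type u) [Field K] (l : ℕ) : (Fin l → ℕ →₀ K) →ₗ[K] (Fin l → K) where
  toFun R i := R i 0
  map_add' _ _ := rfl
  map_smul' _ _ := rfl

/-- the relations of `y` -/
def satRel (p : ℕ) (K : Type u) {M : Type u} [Field K] [CommRing M] [Algebra K M] {l : ℕ}
    (y : Fin l → M) : Submodule K (Fin l → ℕ →₀ K) where
  carrier := {R | evs p R y = 0}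
  add_mem' := fun {a b} ha hb => by
    change evs p (a + b) y = 0
    rw [evs_poly_add, show evs p a y = 0 from ha, show evs p b y = 0 from hb, add_zero]
  zero_mem' := evs_poly_zero y
  smul_mem' := fun c a ha => by
    change evs p (c • a) y = 0
    rw [evs_poly_smul, show evs p a y = 0 from ha, mul_zero]

theorem sat_mem_rel {l : ℕ} {y : Fin l → M} {R : Fin l → ℕ →₀ K} :
    R ∈ satRel p K y ↔ evs p R y = 0 := Iff.rfl

/-- relations whose linear parts are a basis of the linear parts of all relations -/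
theorem sat_basis {l : ℕ} (y : Fin l → M) : ∃ (m : ℕ) (R : Fin m → Fin l → ℕ →₀ K),
    (∀ j, evs p (R j) y = 0) ∧
    (LinearIndependent K fun j : Fin m => fun i : Fin l => R j i 0) ∧
    ∀ Q, evs p Q y = 0 → ∃ c : Fin m → K, ∀ i, Q i 0 = ∑ j, c j * R j i 0 := by
  let Λ := (satRel p K y).map (satLin K l)
  let b := Module.finBasis K Λ
  have h1 : ∀ j, ∃ R : Fin l → ℕ →₀ K, evs p R y = 0 ∧ satLin K l R = (b j : Fin l → K) := by
    intro j
    obtain ⟨R, hR, hR'⟩ := (b j).2
    exact ⟨R, hR, hR'⟩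
  choose R hR hR' using h1
  refine ⟨Module.finrank K Λ, R, hR, ?_, ?_⟩
  · have h2 : (fun j => fun i => R j i 0) = fun j => (b j : Fin l → K) := by
      funext j
      exact hR' j
    rw [h2]
    exact b.linearIndependent.map' Λ.subtype (Submodule.ker_subtype Λ)
  · intro Q hQ
    have hQ' : satLin K l Q ∈ Λ := ⟨Q, hQ, rfl⟩
    refine ⟨fun j => b.repr ⟨_, hQ'⟩ j, fun i => ?_⟩
    have h3 := congrArg (fun v : Λ => (v : Fin l → K) i) (b.sum_repr ⟨_, hQ'⟩)
    simp only at h3
    rw [Submodule.coe_sum, Finset.sum_apply] at h3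
    rw [show Q i 0 = satLin K l Q i from rfl, ← h3]
    refine Finset.sum_congr rfl fun j _ => ?_
    rw [show R j i 0 = satLin K l (R j) i from rfl, hR' j]
    rfl

theorem sat_degLe {l : ℕ} (Q : Fin l → ℕ →₀ K) : ∃ D, DegLe D Q := by
  refine ⟨Finset.univ.sup fun i => (Q i).support.sup id, fun i k hk => ?_⟩
  by_contra h
  have h1 : k ≤ (Q i).support.sup id :=
    Finset.le_sup (f := id) (Finsupp.mem_support_iff.2 h)
  have h2 : (Q i).support.sup id ≤ Finset.univ.sup fun i => (Q i).support.sup id :=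
    Finset.le_sup (f := fun i => (Q i).support.sup id) (Finset.mem_univ i)
  omega

theorem sat_degLe_mono {l : ℕ} {Q : Fin l → ℕ →₀ K} {D D' : ℕ} (h : DegLe D Q) (hD : D ≤ D') :
    DegLe D' Q := fun i k hk => h i k (lt_of_le_of_lt hD hk)

/-- subtraction of the linear part -/
theorem sat_sub {l m : ℕ} (R : Fin m → Fin l → ℕ →₀ K) (Q : Fin l → ℕ →₀ K) (c : Fin m → K)
    (hc : ∀ i, Q i 0 = ∑ j, c j * R j i 0) : ∀ i, (Q - ∑ j, c j • R j) i 0 = 0 := by
  intro i
  rw [Pi.sub_apply, Finsupp.sub_apply, Finset.sum_apply, Finsupp.finsetSum_apply, hc i, sub_eq_zero]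
  rfl

/-- the series `τ` killed by finitely many relations are killed by all -/
theorem sat_all [Fact p.Prime] [CharP K p] (h : IsRat K O) {l m : ℕ} (y : Fin l → L)
    (R : Fin m → Fin l → ℕ →₀ K)
    (hR' : ∀ Q, evs p Q y = 0 → ∃ c : Fin m → K, ∀ i, Q i 0 = ∑ j, c j * R j i 0)
    (hR : ∀ j, evs p (R j) y = 0) (τ : Fin l → PowerSeries K)
    (h0 : ∀ i, PowerSeries.coeff 0 (τ i) = 0) (hτ : ∀ j, evs p (R j) τ = 0)
    (Q : Fin l → ℕ →₀ K) (hQ : evs p Q y = 0) : evs p Q τ = 0 := by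
  have hp2 : 2 ≤ p := (Fact.out : p.Prime).two_le
  have key : ∀ n : ℕ, ∀ Q : Fin l → ℕ →₀ K, evs p Q y = 0 →
      (PowerSeries.X : PowerSeries K) ^ n ∣ evs p Q τ := by
    intro n
    induction n with
    | zero =>
      intro Q _
      rw [pow_zero]
      exact one_dvd _
    | succ n ih =>
      intro Q hQ
      rcases Nat.eq_zero_or_pos n with rfl | hn
      · rw [zero_add, pow_one, PowerSeries.X_dvd_iff]
        have h1 := (coeff_one_evs (p := p) Q τ h0).1
        rwa [PowerSeries.coeff_zero_eq_constantCoeff_apply] at h1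
      · obtain ⟨c, hc⟩ := hR' Q hQ
        obtain ⟨D, hD⟩ := sat_degLe (Q - ∑ j, c j • R j)
        obtain ⟨s, b, Q', hb, _, hQ'⟩ := pin (Q - ∑ j, c j • R j) (sat_sub R Q c hc) hD
        have h1 : evs p (Q - ∑ j, c j • R j) y = 0 := by
          rw [sat_evs_sub, sat_evs_sum, hQ, zero_sub, neg_eq_zero]
          exact Finset.sum_eq_zero fun j _ => by rw [hR j, mul_zero]
        have h2 : ∀ j, evs p (Q' j) y = 0 := by
          intro j
          have h3 := val_sum_pow h hb (fun j => evs p (Q' j) y) j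
          rw [← hQ' L y, h1, map_zero] at h3
          have h4 : O.valuation (evs p (Q' j) y) ^ p = 0 := le_antisymm h3 zero_le
          exact (map_eq_zero _).1 (pow_eq_zero_iff (by omega) |>.1 h4)
        have h3 : evs p Q τ = evs p (Q - ∑ j, c j • R j) τ := by
          rw [sat_evs_sub, sat_evs_sum]
          rw [Finset.sum_eq_zero fun j _ => by rw [hτ j, mul_zero], sub_zero]
        rw [h3, hQ' _ τ]
        refine Finset.dvd_sum fun j _ => Dvd.dvd.mul_left ?_ _
        have h4 := pow_dvd_pow_of_dvd (ih _ (h2 j)) p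
        rw [← pow_mul] at h4
        refine dvd_trans (pow_dvd_pow _ ?_) h4
        nlinarith
  ext n
  rw [map_zero]
  exact PowerSeries.X_pow_dvd_iff.1 (key (n + 1) Q hQ) n (Nat.lt_succ_self n)

/-- duality -/
theorem sat_dual {l m : ℕ} (R : Fin m → Fin l → K) (q : Fin l → K)
    (h : ∀ u : Fin l → K, (∀ j, ∑ i, R j i * u i = 0) → ∑ i, q i * u i = 0) :
    ∃ c : Fin m → K, ∀ i, q i = ∑ j, c j * R j i := by
  let φ : (Fin l → K) → Module.Dual K (Fin l → K) := fun a =>
    { toFun := fun u => ∑ i, a i * u i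
      map_add' := fun u v => by simp [mul_add, Finset.sum_add_distrib]
      map_smul' := fun c u => by
        simp only [Pi.smul_apply, smul_eq_mul, RingHom.id_apply, Finset.mul_sum]
        exact Finset.sum_congr rfl fun i _ => by ring }
  have h1 : φ q ∈ Submodule.span K (Set.range fun j => φ (R j)) := by
    refine mem_span_of_iInf_ker_le_ker ?_
    intro u hu
    rw [Submodule.mem_iInf] at hu
    exact h u fun j => hu j
  rw [Submodule.mem_span_range_iff_exists_fun] at h1
  obtain ⟨c, hc⟩ := h1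
  refine ⟨c, fun i => ?_⟩
  have h2 := LinearMap.congr_fun hc (Pi.single i 1)
  rw [LinearMap.sum_apply] at h2
  have h3 : ∀ a : Fin l → K, φ a (Pi.single i 1) = a i := by
    intro a
    show ∑ k, a k * (Pi.single i 1 : Fin l → K) k = a i
    rw [Finset.sum_eq_single i]
    · rw [Pi.single_eq_same, mul_one]
    · intro k _ hk
      rw [Pi.single_eq_of_ne hk, mul_zero]
    · intro hi
      exact absurd (Finset.mem_univ i) hi
  rw [h3] at h2
  rw [← h2]
  refine Finset.sum_congr rfl fun j _ => ?_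
  rw [LinearMap.smul_apply, h3, smul_eq_mul]

theorem sat_val_evs [Fact p.Prime] (h : IsRat K O) {l : ℕ} {y : Fin l → L}
    (hy : ∀ i, O.valuation (y i) < 1) (Q : Fin l → ℕ →₀ K) : O.valuation (evs p Q y) < 1 := by
  unfold evs ev Finsupp.sum
  refine Valuation.map_sum_lt _ one_ne_zero fun i _ => ?_
  refine Valuation.map_sum_lt _ one_ne_zero fun k _ => ?_
  rw [map_mul, map_pow]
  have h1 : O.valuation (algebraMap K L (Q i k)) ≤ 1 := (O.valuation_le_one_iff _).2 (h.1 _)
  have h2 : O.valuation (y i) ^ p ^ k < 1 :=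
    pow_lt_one₀ zero_le (hy i) (pow_ne_zero _ (Fact.out : p.Prime).ne_zero)
  calc O.valuation (algebraMap K L (Q i k)) * O.valuation (y i) ^ p ^ k
      ≤ 1 * O.valuation (y i) ^ p ^ k := by gcongr
    _ < 1 := by rwa [one_mul]

/-- the values of polynomials of bounded degree -/
theorem sat_fg {l : ℕ} (y : Fin l → L) (D : ℕ) : ∃ E : Submodule K L, E.FG ∧
    ∀ Q : Fin l → ℕ →₀ K, DegLe D Q → evs p Q y ∈ E := by
  refine ⟨Submodule.span K (Set.range fun s : Fin l × Fin (D + 1) => y s.1 ^ p ^ (s.2 : ℕ)),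
    Submodule.fg_span (Set.finite_range _), fun Q hQ => ?_⟩
  unfold evs ev Finsupp.sum
  refine Submodule.sum_mem _ fun i _ => Submodule.sum_mem _ fun k hk => ?_
  show algebraMap K L (Q i k) * y i ^ p ^ k ∈ _
  rw [← Algebra.smul_def]
  refine Submodule.smul_mem _ _ (Submodule.subset_span ?_)
  have hk' : k < D + 1 := by
    by_contra hcon
    exact (Finsupp.mem_support_iff.1 hk) (hQ i k (by omega))
  exact ⟨(i, ⟨k, hk'⟩), rfl⟩

theorem sat [Fact p.Prime] [CharP K p] (h : IsRat K O) {l : ℕ} (y : Fin l → L)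
    (hy : ∀ i, O.valuation (y i) < 1) (Q : Fin l → ℕ →₀ K) (hQ : evs p Q y ≠ 0) :
    ∃ τ : Fin l → PowerSeries K, (∀ i, PowerSeries.coeff 0 (τ i) = 0) ∧
      (∀ R : Fin l → ℕ →₀ K, evs p R y = 0 → evs p R τ = 0) ∧ evs p Q τ ≠ 0 := by
  have hp2 : 2 ≤ p := (Fact.out : p.Prime).two_le
  by_contra hcon
  push Not at hcon
  obtain ⟨m, R, hR, hRi, hR'⟩ := sat_basis (p := p) (K := K) y
  -- the polynomials vanishing at all series
  let U : (Fin l → ℕ →₀ K) → Prop := fun Q => ∀ τ : Fin l → PowerSeries K,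
    (∀ i, PowerSeries.coeff 0 (τ i) = 0) →
    (∀ R : Fin l → ℕ →₀ K, evs p R y = 0 → evs p R τ = 0) → evs p Q τ = 0
  have hQU : U Q := hcon
  obtain ⟨D, hD⟩ : ∃ D, DegLe D Q ∧ ∀ j, DegLe D (R j) := by
    obtain ⟨D0, hD0⟩ := sat_degLe Q
    choose D1 hD1 using fun j => sat_degLe (R j)
    refine ⟨D0 + ∑ j, D1 j, sat_degLe_mono hD0 (Nat.le_add_right _ _), fun j =>
      sat_degLe_mono (hD1 j) ?_⟩
    have := Finset.single_le_sum (f := D1) (fun _ _ => Nat.zero_le _) (Finset.mem_univ j)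
    omega
  -- the decomposition of elements of `U`
  have dec : ∀ Q : Fin l → ℕ →₀ K, U Q → DegLe D Q → ∃ (s : ℕ) (b : Fin s → K)
      (Q' : Fin s → Fin l → ℕ →₀ K), (∀ j, U (Q' j)) ∧ (∀ j, DegLe D (Q' j)) ∧
        evs p Q y = ∑ j, algebraMap K L (b j) * evs p (Q' j) y ^ p := by
    intro Q hU hDQ
    obtain ⟨c, hc⟩ := sat_dual (fun j i => R j i 0) (fun i => Q i 0) (by
      intro u hu
      obtain ⟨τ, h0, h1, h2⟩ := hensel R hRi u hu
      have h3 := hU τ h0 (fun R' hR'' => sat_all h y R hR' hR τ h0 h2 R' hR'')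
      have h4 := (coeff_one_evs (p := p) Q τ h0).2
      rw [h3, map_zero] at h4
      rw [show (∑ i, Q i 0 * u i) = ∑ i, Q i 0 * PowerSeries.coeff 1 (τ i) from
        Finset.sum_congr rfl fun i _ => by rw [h1 i]]
      exact h4.symm)
    have hDQ' : DegLe D (Q - ∑ j, c j • R j) := by
      intro i k hk
      rw [Pi.sub_apply, Finsupp.sub_apply, Finset.sum_apply, Finsupp.finsetSum_apply, hDQ i k hk,
        zero_sub, neg_eq_zero]
      refine Finset.sum_eq_zero fun j _ => ?_
      show c j * R j i k = 0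
      rw [hD.2 j i k hk, mul_zero]
    obtain ⟨s, b, Q', hb, hDQ'', hQ'⟩ := pin (Q - ∑ j, c j • R j) (sat_sub R Q c hc) hDQ'
    refine ⟨s, b, Q', ?_, hDQ'', ?_⟩
    · intro j τ h0 h1
      have h2 : evs p (Q - ∑ j, c j • R j) τ = 0 := by
        rw [sat_evs_sub, sat_evs_sum, hU τ h0 h1, zero_sub, neg_eq_zero]
        exact Finset.sum_eq_zero fun j _ => by rw [h1 _ (hR j), mul_zero]
      rw [hQ' _ τ] at h2
      exact congrFun (pin_series hb (fun j => evs p (Q' j) τ) h2) j
    · rw [← hQ' L y, sat_evs_sub, sat_evs_sum]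
      rw [Finset.sum_eq_zero fun j _ => by rw [hR j, mul_zero], sub_zero]
  obtain ⟨E, hE, hE'⟩ := sat_fg (p := p) (K := K) y D
  have hfin := fin_vals h E hE
  let V : Set O.ValueGroup := {γ | ∃ Q : Fin l → ℕ →₀ K, U Q ∧ DegLe D Q ∧ evs p Q y ≠ 0 ∧
    O.valuation (evs p Q y) = γ}
  have hV : V.Finite := hfin.subset (by
    rintro γ ⟨Q, _, h2, h3, h4⟩
    exact ⟨_, hE' Q h2, h3, h4⟩)
  have hVne : V.Nonempty := ⟨_, Q, hQU, hD.1, hQ, rfl⟩
  obtain ⟨γ, hγ, hmax⟩ := hV.exists_maximalFor id V hVne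
  obtain ⟨Q₁, h1, h2, h3, h4⟩ := hγ
  obtain ⟨s, b, Q', h5, h6, h7⟩ := dec Q₁ h1 h2
  have h8 : ∃ j, O.valuation (evs p Q₁ y) ≤ O.valuation (evs p (Q' j) y) ^ p := by
    by_contra hc
    push Not at hc
    have h9 : O.valuation (evs p Q₁ y) < O.valuation (evs p Q₁ y) := by
      conv_lhs => rw [h7]
      refine Valuation.map_sum_lt _ ((map_ne_zero _).2 h3) fun j _ => ?_
      rw [map_mul, map_pow]
      have h10 : O.valuation (algebraMap K L (b j)) ≤ 1 := (O.valuation_le_one_iff _).2 (h.1 _)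
      calc O.valuation (algebraMap K L (b j)) * O.valuation (evs p (Q' j) y) ^ p
          ≤ 1 * O.valuation (evs p (Q' j) y) ^ p := by gcongr
        _ < _ := by
          rw [one_mul]
          exact hc j
    exact lt_irrefl _ h9
  obtain ⟨j, hj⟩ := h8
  have h9 : evs p (Q' j) y ≠ 0 := by
    intro h10
    rw [h10, map_zero, zero_pow (by omega)] at hj
    exact h3 ((map_eq_zero _).1 (le_antisymm hj zero_le))
  have h10 : O.valuation (evs p (Q' j) y) ^ p < O.valuation (evs p (Q' j) y) := by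
    have h11 := sat_val_evs (p := p) h hy (Q' j)
    have h12 : 0 < O.valuation (evs p (Q' j) y) := zero_lt_iff.2 ((map_ne_zero _).2 h9)
    calc O.valuation (evs p (Q' j) y) ^ p < O.valuation (evs p (Q' j) y) ^ 1 :=
          pow_lt_pow_right_of_lt_one₀ h12 h11 (by omega)
      _ = _ := pow_one _
  have h11 : O.valuation (evs p (Q' j) y) ∈ V := ⟨Q' j, h5 j, h6 j, h9, rfl⟩
  have h12 : γ < O.valuation (evs p (Q' j) y) := by
    rw [← h4]
    exact lt_of_le_of_lt hj h10
  exact absurd (hmax h11 h12.le) (not_le.2 h12)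

end Sat

end

end Pool.Agent.R4A
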