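import Pool.Agent.Lib.MP_4ed7e0_lc.Ctx
import Pool.Agent.Lib.MP_4ed7e0_lc.Alg
import Pool.Agent.Lib.MP_4ed7e0_lc.Res
import Pool.Agent.Lib.MP_4ed7e0_lc.Red
import Pool.Agent.Lib.MP_4ed7e0_lc.Sat

/-!
Module A7 (project R4A): homomorphisms of the span of `1` and `x` into `K` and `K((t))`.
-/

set_option autoImplicit false

namespace Pool.Agent.R4A

noncomputable section

universe u

variable {p : ℕ} {K L M : Type u} [Field K] [Field L] [Algebra K L]
  [CommRing M] [Algebra K M]

/-! ### auxiliary facts -/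

theorem Ext_ev_map {M M' : Type u} [CommRing M] [Algebra K M] [CommRing M'] [Algebra K M']
    (f : M →+* M') (hf : ∀ c : K, f (algebraMap K M c) = algebraMap K M' c) (a : ℕ →₀ K) (x : M) :
    f (ev p a x) = ev p a (f x) := by
  unfold ev
  rw [Finsupp.sum, Finsupp.sum, map_sum]
  refine Finset.sum_congr rfl fun k _ => ?_
  rw [map_mul, map_pow, hf]

theorem Ext_evs_map {M M' : Type u} [CommRing M] [Algebra K M] [CommRing M'] [Algebra K M']
    (f : M →+* M') (hf : ∀ c : K, f (algebraMap K M c) = algebraMap K M' c) {n : ℕ}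
    (P : Fin n → ℕ →₀ K) (x : Fin n → M) : f (evs p P x) = evs p P (fun i => f (x i)) := by
  unfold evs
  rw [map_sum]
  exact Finset.sum_congr rfl fun i _ => Ext_ev_map f hf _ _

theorem Ext_pow_add [hp : Fact p.Prime] [CharP K p] (x y : M) : (x + y) ^ p = x ^ p + y ^ p := by
  have h : ∀ z : M, ev p (Finsupp.single 1 (1 : K)) z = z ^ p := by
    intro z
    unfold ev
    rw [Finsupp.sum_single_index]
    · rw [map_one, one_mul, pow_one]
    · rw [map_zero, zero_mul]
  have h1 := ev_add (p := p) (Finsupp.single 1 (1 : K)) x y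
  rw [h, h, h] at h1
  exact h1

theorem Ext_evs_zero [hp : Fact p.Prime] {n : ℕ} (P : Fin n → ℕ →₀ K) :
    evs p P (fun _ => (0 : M)) = 0 := by
  unfold evs
  exact Finset.sum_eq_zero fun i _ => ev_zero _ hp.out.ne_zero

theorem Ext_evs_add [Fact p.Prime] [CharP K p] {n : ℕ} (P : Fin n → ℕ →₀ K) (x y : Fin n → M) :
    evs p P (fun i => x i + y i) = evs p P x + evs p P y := evs_add P x y

variable {O : ValuationSubring L}

theorem Ext_val_const (h : IsRat K O) (c : K) : O.valuation (algebraMap K L c) ≤ 1 :=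
  (O.valuation_le_one_iff _).2 (h.1 c)

theorem Ext_val_evs [hp : Fact p.Prime] (h : IsRat K O) {l : ℕ} {y : Fin l → L}
    (hy : ∀ i, O.valuation (y i) < 1) (Q : Fin l → ℕ →₀ K) : O.valuation (evs p Q y) < 1 := by
  unfold evs
  refine Valuation.map_sum_lt _ one_ne_zero fun i _ => ?_
  unfold ev
  refine Valuation.map_sum_lt _ one_ne_zero fun k _ => ?_
  rw [map_mul, map_pow]
  have h1 : O.valuation (y i) ^ p ^ k < 1 :=
    pow_lt_one₀ zero_le (hy i) (pow_pos hp.out.pos k).ne'
  exact mul_lt_one_of_nonneg_of_lt_one_right (Ext_val_const h _) zero_le h1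

/-- the representation in `ext_dec` is unique -/
theorem Ext_unique [hp : Fact p.Prime] [CharP K p] (h : IsRat K O) {l r : ℕ} {y : Fin l → L}
    {z : Fin r → L} (hy : ∀ i, O.valuation (y i) < 1) (hz : Indep p K O z) {c c' : K}
    {Q Q' : Fin l → ℕ →₀ K} {P P' : Fin r → ℕ →₀ K}
    (he : algebraMap K L c + evs p Q y + evs p P z =
      algebraMap K L c' + evs p Q' y + evs p P' z) :
    c = c' ∧ P = P' ∧ evs p (Q + (-1 : K) • Q') y = 0 := by
  have hQ : evs p (Q + (-1 : K) • Q') y = evs p Q y - evs p Q' y := by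
    rw [evs_poly_add, evs_poly_smul, map_neg, map_one, neg_one_mul, sub_eq_add_neg]
  have hP : evs p (P + (-1 : K) • P') z = evs p P z - evs p P' z := by
    rw [evs_poly_add, evs_poly_smul, map_neg, map_one, neg_one_mul, sub_eq_add_neg]
  have hv := Ext_val_evs (p := p) h hy (Q + (-1 : K) • Q')
  have h1 : P + (-1 : K) • P' = 0 := by
    apply hz
    rw [hP]
    have h2 : evs p P z - evs p P' z = algebraMap K L (c' - c) - evs p (Q + (-1 : K) • Q') y := by
      rw [hQ, map_sub]
      linear_combination he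
    rw [h2]
    exact sub_mem (h.1 _) ((O.valuation_le_one_iff _).1 hv.le)
  have h3 : P = P' := by
    funext i
    ext k
    have h2 := DFunLike.congr_fun (congrFun h1 i) k
    simp only [Pi.add_apply, Pi.smul_apply, Finsupp.add_apply, Finsupp.smul_apply, smul_eq_mul,
      Pi.zero_apply, Finsupp.zero_apply] at h2
    linear_combination h2
  subst h3
  have h4 : evs p (Q + (-1 : K) • Q') y = algebraMap K L (c' - c) := by
    rw [hQ, map_sub]
    linear_combination he
  have h5 : c = c' := by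
    by_contra hne
    have h6 := val_const (O := O) h (sub_ne_zero.2 (Ne.symm hne))
    rw [h4, h6] at hv
    exact lt_irrefl _ hv
  refine ⟨h5, rfl, ?_⟩
  rw [h4, h5, sub_self, map_zero]

/-- construction of homomorphisms -/
theorem Ext_mk [hp : Fact p.Prime] [CharP K p] (h : IsRat K O) {l r : ℕ} {y : Fin l → L}
    {z : Fin r → L} (hy : ∀ i, O.valuation (y i) < 1) (hz : Indep p K O z) {W : Set L}
    (hW : ∀ w, w ∈ W ↔ ∃ (c : K) (Q : Fin l → ℕ →₀ K) (P : Fin r → ℕ →₀ K),
      w = algebraMap K L c + evs p Q y + evs p P z) (τ : Fin l → M)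
    (hτ : ∀ R : Fin l → ℕ →₀ K, evs p R y = 0 → evs p R τ = 0) (ζ : Fin r → M) (κ : M)
    (hκ : κ ^ p = κ) : ∃ θ : L → M, Hm p K W θ ∧ ∀ (c : K) (Q : Fin l → ℕ →₀ K)
      (P : Fin r → ℕ →₀ K), θ (algebraMap K L c + evs p Q y + evs p P z) =
        algebraMap K M c * κ + evs p Q τ + evs p P ζ := by
  classical
  let Θ : K → (Fin l → ℕ →₀ K) → (Fin r → ℕ →₀ K) → M := fun c Q P =>
    algebraMap K M c * κ + evs p Q τ + evs p P ζ
  have hΘ : ∀ c c' Q Q' P P', algebraMap K L c + evs p Q y + evs p P z =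
      algebraMap K L c' + evs p Q' y + evs p P' z → Θ c Q P = Θ c' Q' P' := by
    intro c c' Q Q' P P' he
    obtain ⟨h1, h2, h3⟩ := Ext_unique h hy hz he
    have h4 := hτ _ h3
    rw [evs_poly_add, evs_poly_smul, map_neg, map_one, neg_one_mul, ← sub_eq_add_neg] at h4
    show _ = _
    simp only [Θ]
    rw [h1, h2, sub_eq_zero.1 h4]
  let θ : L → M := fun w =>
    if hw : ∃ s : K × (Fin l → ℕ →₀ K) × (Fin r → ℕ →₀ K),
      w = algebraMap K L s.1 + evs p s.2.1 y + evs p s.2.2 z then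
      Θ hw.choose.1 hw.choose.2.1 hw.choose.2.2 else 0
  have hθ : ∀ c Q P, θ (algebraMap K L c + evs p Q y + evs p P z) = Θ c Q P := by
    intro c Q P
    have hw : ∃ s : K × (Fin l → ℕ →₀ K) × (Fin r → ℕ →₀ K),
        algebraMap K L c + evs p Q y + evs p P z =
          algebraMap K L s.1 + evs p s.2.1 y + evs p s.2.2 z := ⟨(c, Q, P), rfl⟩
    simp only [θ]
    rw [dif_pos hw]
    exact (hΘ _ _ _ _ _ _ hw.choose_spec).symm
  refine ⟨θ, ⟨?_, ?_, ?_⟩, hθ⟩
  · intro a ha b hb
    obtain ⟨c, Q, P, rfl⟩ := (hW a).1 ha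
    obtain ⟨c', Q', P', rfl⟩ := (hW b).1 hb
    have h1 : algebraMap K L c + evs p Q y + evs p P z +
        (algebraMap K L c' + evs p Q' y + evs p P' z) =
        algebraMap K L (c + c') + evs p (Q + Q') y + evs p (P + P') z := by
      rw [map_add, evs_poly_add, evs_poly_add]
      ring
    rw [h1, hθ, hθ, hθ]
    simp only [Θ]
    rw [map_add, evs_poly_add, evs_poly_add]
    ring
  · intro c₀ a ha
    obtain ⟨c, Q, P, rfl⟩ := (hW a).1 ha
    have h1 : algebraMap K L c₀ * (algebraMap K L c + evs p Q y + evs p P z) =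
        algebraMap K L (c₀ * c) + evs p (c₀ • Q) y + evs p (c₀ • P) z := by
      rw [map_mul, evs_poly_smul, evs_poly_smul]
      ring
    rw [h1, hθ, hθ]
    simp only [Θ]
    rw [map_mul, evs_poly_smul, evs_poly_smul]
    ring
  · intro a ha
    obtain ⟨c, Q, P, rfl⟩ := (hW a).1 ha
    obtain ⟨Q', hQ'⟩ := evs_pow (p := p) Q
    obtain ⟨P', hP'⟩ := evs_pow (p := p) P
    have h1 : (algebraMap K L c + evs p Q y + evs p P z) ^ p =
        algebraMap K L (c ^ p) + evs p Q' y + evs p P' z := by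
      rw [Ext_pow_add (K := K), Ext_pow_add (K := K), map_pow, hQ', hP']
    rw [h1, hθ, hθ]
    simp only [Θ]
    rw [Ext_pow_add (K := K), Ext_pow_add (K := K), mul_pow, hκ, map_pow, hQ', hP']

/-! ### the statements -/
section Ext

/-- structure of the span of `1` and `x` -/
theorem ext_dec [Fact p.Prime] [CharP K p] (h : IsRat K O) {n : ℕ} (x : Fin n → L) :
    ∃ (l r : ℕ) (y : Fin l → L) (z : Fin r → L), (∀ i, O.valuation (y i) < 1) ∧
      Indep p K O z ∧ ∀ w, w ∈ spn p K (Fin.cons 1 x : Fin (n + 1) → L) ↔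
        ∃ (c : K) (Q : Fin l → ℕ →₀ K) (P : Fin r → ℕ →₀ K),
          w = algebraMap K L c + evs p Q y + evs p P z := by
  obtain ⟨l, r, y₀, z, hy₀, hz, hw⟩ := red (p := p) h (Fin.cons 1 x : Fin (n + 1) → L)
  obtain ⟨res, hres, -, -, -, -, -⟩ := exists_res (O := O) h
  refine ⟨l, r, fun i => y₀ i - algebraMap K L (res (y₀ i)), z, fun i => hres _ (hy₀ i), hz, ?_⟩
  have hconst : ∀ Q : Fin l → ℕ →₀ K, evs p Q (fun i => algebraMap K L (res (y₀ i))) =
      algebraMap K L (evs p Q (fun i => res (y₀ i))) := fun Q =>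
    (Ext_evs_map (algebraMap K L) (fun _ => rfl) Q _).symm
  have hsplit : ∀ Q : Fin l → ℕ →₀ K, evs p Q y₀ =
      evs p Q (fun i => y₀ i - algebraMap K L (res (y₀ i))) +
        algebraMap K L (evs p Q (fun i => res (y₀ i))) := by
    intro Q
    rw [← hconst, ← Ext_evs_add]
    congr 1
    funext i
    ring
  have hc : ∀ c : K, algebraMap K L c ∈ spn p K (Fin.cons 1 x : Fin (n + 1) → L) := by
    intro c
    have h1 := spn_smul (p := p) (Fin.cons 1 x : Fin (n + 1) → L) c (spn_self _ 0)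
    rw [Fin.cons_zero, mul_one] at h1
    exact h1
  intro w
  constructor
  · intro hw'
    obtain ⟨a, ⟨Q, rfl⟩, b, ⟨P, rfl⟩, rfl⟩ := (hw w).1 hw'
    refine ⟨evs p Q (fun i => res (y₀ i)), Q, P, ?_⟩
    rw [hsplit]
    ring
  · rintro ⟨c, Q, P, rfl⟩
    have h1 : evs p Q (fun i => y₀ i - algebraMap K L (res (y₀ i))) + evs p P z ∈
        spn p K (Fin.cons 1 x : Fin (n + 1) → L) := by
      have h2 : evs p Q (fun i => y₀ i - algebraMap K L (res (y₀ i))) + evs p P z =
          (evs p Q y₀ + evs p P z) + algebraMap K L (-(evs p Q (fun i => res (y₀ i)))) := by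
        rw [hsplit, map_neg]
        ring
      rw [h2]
      exact spn_add _ ((hw _).2 ⟨_, ⟨Q, rfl⟩, _, ⟨P, rfl⟩, rfl⟩) (hc _)
    rw [add_assoc]
    exact spn_add _ (hc c) h1

theorem ext_ret [Fact p.Prime] [CharP K p] (h : IsRat K O) {n : ℕ} (x : Fin n → L) :
    ∃ ρ : L → K, Hm p K (spn p K (Fin.cons 1 x : Fin (n + 1) → L)) ρ ∧ ρ 1 = 1 := by
  obtain ⟨l, r, y, z, hy, hz, hw⟩ := ext_dec (p := p) h x
  obtain ⟨θ, hθ, hθ'⟩ := Ext_mk (M := K) h hy hz hw (fun _ => 0)
    (fun R _ => Ext_evs_zero R) (fun _ => 0) 1 (one_pow p)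
  refine ⟨θ, hθ, ?_⟩
  have h1 := hθ' 1 0 0
  rw [evs_poly_zero, evs_poly_zero, evs_poly_zero, evs_poly_zero, map_one, map_one, add_zero,
    add_zero, mul_one, add_zero, add_zero] at h1
  exact h1

theorem Ext_C (c : K) : (algebraMap K (LaurentSeries K) c) = HahnSeries.C c := by
  rw [HahnSeries.algebraMap_apply', PowerSeries.algebraMap_apply]
  exact HahnSeries.ofPowerSeries_C (Γ := ℤ) c

/-- the coefficients of a polynomial in the Frobenius at `1 / t` -/
theorem Ext_coeff [hp : Fact p.Prime] (a : ℕ →₀ K) (m : ℤ) :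
    (ev p a (HahnSeries.single (-1 : ℤ) (1 : K) : LaurentSeries K)).coeff m =
      a.sum fun k c => if m = -((p : ℤ) ^ k) then c else 0 := by
  unfold ev
  rw [Finsupp.sum, Finsupp.sum, HahnSeries.coeff_sum]
  refine Finset.sum_congr rfl fun k _ => ?_
  rw [HahnSeries.single_pow, Ext_C, HahnSeries.C_apply, HahnSeries.single_mul_single, zero_add,
    one_pow, mul_one, HahnSeries.coeff_single]
  have h1 : (p ^ k : ℕ) • (-1 : ℤ) = -((p : ℤ) ^ k) := by
    rw [nsmul_eq_mul]
    push_cast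
    ring
  rw [h1]
  split_ifs <;> rfl

theorem Ext_coeff_zero [hp : Fact p.Prime] (a : ℕ →₀ K) :
    (ev p a (HahnSeries.single (-1 : ℤ) (1 : K) : LaurentSeries K)).coeff 0 = 0 := by
  rw [Ext_coeff]
  refine Finset.sum_eq_zero fun k _ => ?_
  beta_reduce
  rw [if_neg]
  have : (0 : ℤ) < (p : ℤ) ^ k := by
    have := hp.out.pos
    positivity
  omega

theorem Ext_coeff_pow [hp : Fact p.Prime] (a : ℕ →₀ K) (k : ℕ) :
    (ev p a (HahnSeries.single (-1 : ℤ) (1 : K) : LaurentSeries K)).coeff (-((p : ℤ) ^ k)) = a k := by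
  rw [Ext_coeff, Finsupp.sum]
  by_cases hk : k ∈ a.support
  · rw [Finset.sum_eq_single k]
    · rw [if_pos rfl]
    · intro j _ hj
      rw [if_neg]
      intro h
      apply hj
      have h1 : (p : ℤ) ^ k = (p : ℤ) ^ j := by linarith
      have h2 : p ^ k = p ^ j := by exact_mod_cast h1
      exact (Nat.pow_right_injective hp.out.two_le h2).symm
    · intro h
      exact absurd hk h
  · rw [Finsupp.notMem_support_iff.1 hk]
    refine Finset.sum_eq_zero fun j hj => ?_
    rw [if_neg]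
    intro h
    have h1 : (p : ℤ) ^ k = (p : ℤ) ^ j := by linarith
    have h2 : p ^ k = p ^ j := by exact_mod_cast h1
    have h3 := Nat.pow_right_injective hp.out.two_le h2
    subst h3
    exact hk hj

theorem ext_hom [Fact p.Prime] [CharP K p] (h : IsRat K O) {n : ℕ} (x : Fin n → L) {w : L}
    (hw : w ∈ spn p K (Fin.cons 1 x : Fin (n + 1) → L)) (hK : ∀ c : K, w ≠ algebraMap K L c) :
    ∃ θ : L → LaurentSeries K, Hm p K (spn p K (Fin.cons 1 x : Fin (n + 1) → L)) θ ∧ θ 1 = 0 ∧
      θ w ≠ 0 ∧ ∀ a ∈ spn p K (Fin.cons 1 x : Fin (n + 1) → L), θ a = HahnSeries.C ((θ a).coeff 0) →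
        θ a = 0 := by
  have hp : Fact p.Prime := inferInstance
  obtain ⟨l, r, y, z, hy, hz, hdec⟩ := ext_dec (p := p) h x
  obtain ⟨c, Q, P, rfl⟩ := (hdec w).1 hw
  have hκ : (0 : LaurentSeries K) ^ p = 0 := zero_pow hp.out.ne_zero
  by_cases hP : P = 0
  · subst hP
    have hQ : evs p Q y ≠ 0 := by
      intro h0
      apply hK c
      rw [h0, evs_poly_zero, add_zero, add_zero]
    obtain ⟨τ, hτ0, hτ, hτQ⟩ := sat (p := p) h y hy Q hQ
    let ι : PowerSeries K →+* LaurentSeries K := HahnSeries.ofPowerSeries ℤ K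
    have hι : ∀ c : K, ι (algebraMap K (PowerSeries K) c) = algebraMap K (LaurentSeries K) c := by
      intro c
      rw [Ext_C]
      exact HahnSeries.ofPowerSeries_C (Γ := ℤ) c
    have hmap : ∀ R : Fin l → ℕ →₀ K, evs p R (fun i => ι (τ i)) = ι (evs p R τ) := fun R =>
      (Ext_evs_map ι hι R τ).symm
    obtain ⟨θ, hθ, hθ'⟩ := Ext_mk (M := LaurentSeries K) h hy hz hdec (fun i => ι (τ i))
      (fun R hR => by rw [hmap, hτ R hR, map_zero]) (fun _ => 0) 0 hκ
    have hform : ∀ (c : K) (Q : Fin l → ℕ →₀ K) (P : Fin r → ℕ →₀ K),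
        θ (algebraMap K L c + evs p Q y + evs p P z) = ι (evs p Q τ) := by
      intro c Q P
      rw [hθ', hmap, Ext_evs_zero, mul_zero, zero_add, add_zero]
    refine ⟨θ, hθ, ?_, ?_, ?_⟩
    · have h1 := hform 1 0 0
      rw [evs_poly_zero, evs_poly_zero, evs_poly_zero, map_zero, map_one, add_zero, add_zero] at h1
      exact h1
    · rw [hform]
      intro h0
      apply hτQ
      exact HahnSeries.ofPowerSeries_injective (Γ := ℤ) (R := K) (h0.trans (map_zero ι).symm)
    · intro a ha hconst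
      obtain ⟨c', Q', P', rfl⟩ := (hdec a).1 ha
      rw [hform] at hconst ⊢
      have h1 : PowerSeries.constantCoeff (evs p Q' τ) = 0 := by
        have h2 := Ext_evs_map (p := p) (M := PowerSeries K) (M' := K)
          (PowerSeries.constantCoeff (R := K))
          (fun c => PowerSeries.constantCoeff_C c) Q' τ
        rw [h2]
        have h3 : (fun i => PowerSeries.constantCoeff (τ i)) = fun _ : Fin l => (0 : K) := by
          funext i
          have h4 := hτ0 i
          rw [PowerSeries.coeff_zero_eq_constantCoeff_apply] at h4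
          exact h4
        rw [h3]
        exact Ext_evs_zero Q'
      have h5 : (ι (evs p Q' τ)).coeff 0 = 0 := by
        have h6 := HahnSeries.ofPowerSeries_apply_coeff (Γ := ℤ) (evs p Q' τ) 0
        rw [Nat.cast_zero] at h6
        rw [← h1, ← PowerSeries.coeff_zero_eq_constantCoeff_apply]
        exact h6
      rw [h5, map_zero] at hconst
      exact hconst
  · obtain ⟨i₀, hi₀⟩ : ∃ i, P i ≠ 0 := by
      by_contra hcon
      push Not at hcon
      exact hP (funext hcon)
    let t : LaurentSeries K := HahnSeries.single (-1 : ℤ) (1 : K)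
    obtain ⟨θ, hθ, hθ'⟩ := Ext_mk (M := LaurentSeries K) h hy hz hdec (fun _ => 0)
      (fun R _ => Ext_evs_zero R) (fun i => if i = i₀ then t else 0) 0 hκ
    have hform : ∀ (c : K) (Q : Fin l → ℕ →₀ K) (P : Fin r → ℕ →₀ K),
        θ (algebraMap K L c + evs p Q y + evs p P z) = ev p (P i₀) t := by
      intro c Q P
      rw [hθ', Ext_evs_zero, mul_zero, zero_add, zero_add]
      unfold evs
      rw [Finset.sum_eq_single i₀]
      · beta_reduce
        rw [if_pos rfl]
      · intro i _ hi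
        beta_reduce
        rw [if_neg hi]
        exact ev_zero _ hp.out.ne_zero
      · intro h
        exact absurd (Finset.mem_univ _) h
    refine ⟨θ, hθ, ?_, ?_, ?_⟩
    · have h1 := hform 1 0 0
      rw [evs_poly_zero, evs_poly_zero, map_one, add_zero, add_zero] at h1
      rw [h1]
      exact ev_poly_zero t
    · rw [hform]
      intro h0
      apply hi₀
      ext k
      rw [← Ext_coeff_pow (p := p) (P i₀) k]
      show (ev p (P i₀) t).coeff _ = _
      rw [h0]
      rfl
    · intro a ha hconst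
      obtain ⟨c', Q', P', rfl⟩ := (hdec a).1 ha
      rw [hform] at hconst ⊢
      have h5 : (ev p (P' i₀) t).coeff 0 = 0 := Ext_coeff_zero (p := p) (P' i₀)
      rw [h5, map_zero] at hconst
      exact hconst

end Ext

end

end Pool.Agent.R4A
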