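import Pool.Agent.Lib.MP_4ed7e0_lc.Alg
import Pool.Agent.Lib.MP_4ed7e0_lc.Ext

/-!
Module A8 of R4A (MP_4ed7e0_lc): one homomorphism which is nonzero at finitely many elements.
-/

set_option autoImplicit false

namespace Pool.Agent.R4A

noncomputable section

universe u

variable {p : ℕ} {K L M : Type u} [Field K] [Field L] [Algebra K L]
  [CommRing M] [Algebra K M]

/-! ### A8 Com.lean: one homomorphism for finitely many elements -/
section Com

variable {O : ValuationSubring L}

/-- multiplication by `N` -/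
def com_mul (N : ℕ) : ℤ →+ ℤ := AddMonoidHom.mulLeft (N : ℤ)

theorem com_mul_apply (N : ℕ) (k : ℤ) : com_mul N k = N * k := rfl

theorem com_mul_inj (N : ℕ) (hN : 1 ≤ N) : Function.Injective (com_mul N) := by
  intro a b h
  rw [com_mul_apply, com_mul_apply] at h
  exact mul_left_cancel₀ (by exact_mod_cast (by omega : N ≠ 0)) h

theorem com_mul_le (N : ℕ) (hN : 1 ≤ N) (a b : ℤ) : com_mul N a ≤ com_mul N b ↔ a ≤ b := by
  rw [com_mul_apply, com_mul_apply]
  exact mul_le_mul_iff_right₀ (by exact_mod_cast hN)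

theorem com_algebraMap (c : K) : algebraMap K (LaurentSeries K) c = HahnSeries.C c := by
  rw [HahnSeries.algebraMap_apply', PowerSeries.algebraMap_apply]
  exact HahnSeries.ofPowerSeries_C c

/-- the substitution `t ↦ t^N` -/
theorem exists_sub (K : Type u) [Field K] (N : ℕ) (hN : 1 ≤ N) :
    ∃ σ : LaurentSeries K →ₐ[K] LaurentSeries K, ∀ (f : LaurentSeries K) (k : ℤ),
      (σ f).coeff (N * k) = f.coeff k ∧ ∀ j : ℤ, ¬ (N : ℤ) ∣ j → (σ f).coeff j = 0 := by
  refine ⟨{ HahnSeries.embDomainRingHom (com_mul N) (com_mul_inj N hN) (com_mul_le N hN) with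
    commutes' := fun c => ?_ }, ?_⟩
  · show HahnSeries.embDomainRingHom (com_mul N) (com_mul_inj N hN) (com_mul_le N hN)
      (algebraMap K (LaurentSeries K) c) = algebraMap K (LaurentSeries K) c
    rw [com_algebraMap, HahnSeries.embDomainRingHom_C]
  intro f k
  constructor
  · exact HahnSeries.embDomain_coeff (f := ⟨⟨com_mul N, com_mul_inj N hN⟩, com_mul_le N hN _ _⟩)
  · intro j hj
    refine HahnSeries.embDomain_of_notMem_range (f := ⟨⟨com_mul N, com_mul_inj N hN⟩, com_mul_le N hN _ _⟩) ?_
    rintro ⟨i, hi⟩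
    exact hj ⟨i, hi.symm⟩

/-- a series with equal substitutions is constant -/
theorem com_const (f : LaurentSeries K) {N N' : ℕ} (h0 : 1 ≤ N) (hNN : N < N')
    {σ σ' : LaurentSeries K →ₐ[K] LaurentSeries K}
    (hσ : ∀ (f : LaurentSeries K) (k : ℤ),
      (σ f).coeff (N * k) = f.coeff k ∧ ∀ j : ℤ, ¬ (N : ℤ) ∣ j → (σ f).coeff j = 0)
    (hσ' : ∀ (f : LaurentSeries K) (k : ℤ),
      (σ' f).coeff (N' * k) = f.coeff k ∧ ∀ j : ℤ, ¬ (N' : ℤ) ∣ j → (σ' f).coeff j = 0)
    (h : σ f = σ' f) : f = HahnSeries.C (f.coeff 0) := by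
  have key : ∀ m : ℕ, ∀ k : ℤ, k.natAbs = m → k ≠ 0 → f.coeff k = 0 := by
    intro m
    induction m using Nat.strong_induction_on with
    | _ m ih =>
      intro k hk hk0
      by_contra hc
      have h1 : (σ' f).coeff (N * k) ≠ 0 := by
        rw [← h, (hσ f k).1]
        exact hc
      have h2 : (N' : ℤ) ∣ N * k := by
        by_contra h3
        exact h1 ((hσ' f k).2 _ h3)
      obtain ⟨k', hk'⟩ := h2
      rw [hk', (hσ' f k').1] at h1
      have hk'0 : k' ≠ 0 := by
        rintro rfl
        rw [mul_zero] at hk'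
        rcases mul_eq_zero.1 hk' with h4 | h4
        · have : N = 0 := by exact_mod_cast h4
          omega
        · exact hk0 h4
      have h5 : N * k.natAbs = N' * k'.natAbs := by
        have := congrArg Int.natAbs hk'
        rw [Int.natAbs_mul, Int.natAbs_mul, Int.natAbs_natCast, Int.natAbs_natCast] at this
        exact this
      have h6 : 0 < k'.natAbs := Int.natAbs_pos.2 hk'0
      have h7 : k'.natAbs < k.natAbs := by
        by_contra h8
        push Not at h8
        have h9 : N * k.natAbs < N' * k'.natAbs := by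
          calc N * k.natAbs ≤ N * k'.natAbs := Nat.mul_le_mul_left _ h8
            _ < N' * k'.natAbs := Nat.mul_lt_mul_of_pos_right hNN h6
        omega
      exact h1 (ih k'.natAbs (by omega) k' rfl hk'0)
  ext k
  rw [HahnSeries.C_apply]
  by_cases hk : k = 0
  · subst hk
    rw [HahnSeries.coeff_single_same]
  · rw [HahnSeries.coeff_single_of_ne hk, key _ k rfl hk]

/-- the homomorphism `θ + σ ∘ θ₀` -/
theorem com_hm [Fact p.Prime] [CharP K p] {W : Set L} {θ θ₀ : L → LaurentSeries K}
    (h : Hm p K W θ) (h₀ : Hm p K W θ₀) (σ : LaurentSeries K →ₐ[K] LaurentSeries K) :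
    Hm p K W fun a => θ a + σ (θ₀ a) where
  add a ha b hb := by
    simp only [h.add a ha b hb, h₀.add a ha b hb, map_add]
    ring
  smul c a ha := by
    simp only [h.smul c a ha, h₀.smul c a ha, map_mul, AlgHom.commutes]
    ring
  frob a ha := by
    have : CharP (LaurentSeries K) p :=
      charP_of_injective_algebraMap (algebraMap K (LaurentSeries K)).injective p
    simp only [h.frob a ha, h₀.frob a ha, map_pow]
    rw [add_pow_char]

theorem com [Fact p.Prime] [CharP K p] (h : IsRat K O) {n : ℕ} (x : Fin n → L) (F : Finset L)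
    (hF : ∀ w ∈ F, w ∈ spn p K (Fin.cons 1 x : Fin (n + 1) → L) ∧ w ≠ 0) :
    ∃ θ : L → LaurentSeries K, Hm p K (spn p K (Fin.cons 1 x : Fin (n + 1) → L)) θ ∧ θ 1 = 1 ∧
      ∀ w ∈ F, θ w ≠ 0 := by
  classical
  have h1W : (1 : L) ∈ spn p K (Fin.cons 1 x : Fin (n + 1) → L) := by
    have := spn_self (p := p) (K := K) (Fin.cons 1 x : Fin (n + 1) → L) 0
    rwa [Fin.cons_zero] at this
  induction F using Finset.induction_on with
  | empty =>
    obtain ⟨ρ, hρ, hρ1⟩ := ext_ret (p := p) h x
    refine ⟨fun a => algebraMap K (LaurentSeries K) (ρ a), ⟨?_, ?_, ?_⟩, ?_, ?_⟩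
    · intro a ha b hb
      rw [hρ.add a ha b hb, map_add]
    · intro c a ha
      rw [hρ.smul c a ha, map_mul]
      rfl
    · intro a ha
      rw [hρ.frob a ha, map_pow]
    · show algebraMap K (LaurentSeries K) (ρ 1) = 1
      rw [hρ1, map_one]
    · intro w hw
      exact absurd hw (Finset.notMem_empty w)
  | insert w F hw ih =>
    obtain ⟨θ, hθ, hθ1, hθF⟩ := ih fun w' hw' => hF w' (Finset.mem_insert_of_mem hw')
    obtain ⟨hwW, hw0⟩ := hF w (Finset.mem_insert_self w F)
    by_cases hK : ∃ c : K, w = algebraMap K L c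
    · obtain ⟨c, rfl⟩ := hK
      refine ⟨θ, hθ, hθ1, ?_⟩
      intro w' hw'
      rcases Finset.mem_insert.1 hw' with rfl | hw'
      · have h2 := hθ.smul c 1 h1W
        rw [mul_one, hθ1, mul_one] at h2
        rw [h2]
        intro h3
        apply hw0
        rw [(map_eq_zero_iff _ (algebraMap K (LaurentSeries K)).injective).1 h3, map_zero]
      · exact hθF w' hw'
    · push Not at hK
      obtain ⟨θ₀, hθ₀, hθ₀1, hθ₀w, hcon⟩ := ext_hom h x hwW hK
      choose σ hσ using exists_sub K
      let Bad : L → Set ℕ := fun w' =>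
        {N | ∃ hN : 1 ≤ N, θ₀ w' ≠ 0 ∧ θ w' + σ N hN (θ₀ w') = 0}
      have hBad : ∀ w' ∈ insert w F, (Bad w').Finite := by
        intro w' hw'
        refine Set.Subsingleton.finite ?_
        have key : ∀ N N' : ℕ, N ∈ Bad w' → N' ∈ Bad w' → ¬ N < N' := by
          rintro N N' ⟨hN, h2, h3⟩ ⟨hN', _, h4⟩ hlt
          apply h2
          refine hcon w' (hF w' hw').1 (com_const (θ₀ w') hN hlt (hσ N hN) (hσ N' hN') ?_)
          rw [← h4] at h3
          exact add_left_cancel h3
        intro N hN N' hN'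
        rcases lt_trichotomy N N' with h2 | h2 | h2
        · exact absurd h2 (key N N' hN hN')
        · exact h2
        · exact absurd h2 (key N' N hN' hN)
      have hfin : ((⋃ w' ∈ (insert w F : Finset L), Bad w') ∪ {0}).Finite :=
        ((insert w F : Finset L).finite_toSet.biUnion hBad).union (Set.finite_singleton 0)
      obtain ⟨N, hN⟩ := hfin.infinite_compl.nonempty
      have hN0 : 1 ≤ N := by
        rcases Nat.eq_zero_or_pos N with h2 | h2
        · exact absurd (Or.inr h2) hN
        · exact h2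
      refine ⟨fun a => θ a + σ N hN0 (θ₀ a), com_hm hθ hθ₀ _, ?_, ?_⟩
      · simp only [hθ1, hθ₀1, map_zero, add_zero]
      · intro w' hw' h2
        have h2' : θ w' + σ N hN0 (θ₀ w') = 0 := h2
        by_cases h3 : θ₀ w' = 0
        · rw [h3, map_zero, add_zero] at h2'
          rcases Finset.mem_insert.1 hw' with rfl | hw'
          · exact hθ₀w h3
          · exact hθF w' hw' h2'
        · exact hN (Or.inl (Set.mem_biUnion hw' ⟨hN0, h3, h2'⟩))

end Com

end

end Pool.Agent.R4A
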