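import Pool.Agent.Lib.MP_4ed7e0_lc.Defs

/-!
Internal vocabulary: the module spanned by a family over the ring of additive polynomials, its
homomorphisms.
-/

set_option autoImplicit false

namespace Pool.Agent.R4A

noncomputable section

universe u

variable {p : ℕ} {K L M : Type u} [Field K] [Field L] [Algebra K L]
  [CommRing M] [Algebra K M]

/-- all values `∑ P_j(x_j)` of additive polynomials -/
def spn (p : ℕ) (K : Type u) {L : Type u} [Field K] [Field L] [Algebra K L] {n : ℕ}
    (x : Fin n → L) : Set L := {w | ∃ P : Fin n → ℕ →₀ K, w = evs p P x}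

/-- `θ` restricted to `W` is compatible with addition, scalars and `p`-th powers -/
structure Hm (p : ℕ) (K : Type u) {L : Type u} {M : Type u} [Field K] [Field L] [Algebra K L]
    [CommRing M] [Algebra K M] (W : Set L) (θ : L → M) : Prop where
  add : ∀ a ∈ W, ∀ b ∈ W, θ (a + b) = θ a + θ b
  smul : ∀ (c : K), ∀ a ∈ W, θ (algebraMap K L c * a) = algebraMap K M c * θ a
  frob : ∀ a ∈ W, θ (a ^ p) = θ a ^ p

/-- independence over the ring of additive polynomials, modulo `O` -/
def Indep (p : ℕ) (K : Type u) {L : Type u} [Field K] [Field L] [Algebra K L]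
    (O : ValuationSubring L) {r : ℕ} (z : Fin r → L) : Prop :=
  ∀ P : Fin r → ℕ →₀ K, evs p P z ∈ O → P = 0

/-- linear independence over the subfield of `p`-th powers -/
def PInd (p : ℕ) {K : Type u} [Field K] {s : ℕ} (b : Fin s → K) : Prop :=
  ∀ c : Fin s → K, ∑ j, b j * c j ^ p = 0 → c = 0

/-- all exponents of `P` are at most `p ^ D` -/
def DegLe {K : Type u} [Field K] {n : ℕ} (D : ℕ) (P : Fin n → ℕ →₀ K) : Prop :=
  ∀ j k, D < k → P j k = 0

end

end Pool.Agent.R4A
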