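import Mathlib

/-!
Definitions for MP_4ed7e0_lc: additive polynomials over a field `K` of characteristic `p`, and
extension fields of `K` with a `K`-rational place.
-/

set_option autoImplicit false

namespace Pool.Agent.R4A

noncomputable section

universe u

/-- The value at `x` of the additive polynomial `∑ a_k X^(p^k)`. -/
def ev (p : ℕ) {K : Type u} {M : Type u} [Field K] [CommRing M] [Algebra K M] (a : ℕ →₀ K)
    (x : M) : M :=
  a.sum fun k c => algebraMap K M c * x ^ p ^ k

/-- The value at `x` of the additive polynomial `∑ P_j(X_j)` in several variables. -/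
def evs (p : ℕ) {K : Type u} {M : Type u} [Field K] [CommRing M] [Algebra K M] {n : ℕ}
    (P : Fin n → ℕ →₀ K) (x : Fin n → M) : M :=
  ∑ j, ev p (P j) (x j)

/-- `K` is large: existentially closed in the field `K((t))`. -/
def Large (K : Type u) [Field K] : Prop :=
  ∀ (n : ℕ) (S : Finset (MvPolynomial (Fin n) K)),
    (∃ x : Fin n → LaurentSeries K, ∀ q ∈ S, MvPolynomial.aeval x q = 0) →
      ∃ x : Fin n → K, ∀ q ∈ S, MvPolynomial.eval x q = 0

/-- The valuation ring `O` of `L` contains `K` and its residue field is `K`. -/
def IsRat (K : Type u) {L : Type u} [Field K] [Field L] [Algebra K L] (O : ValuationSubring L) :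
    Prop :=
  (∀ a : K, algebraMap K L a ∈ O) ∧ ∀ x ∈ O, ∃ a : K, O.valuation (x - algebraMap K L a) < 1

end

end Pool.Agent.R4A
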