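import Pool.Agent.Lib.MP_4ed7e0_lc.Ctx
import Pool.Agent.Lib.MP_4ed7e0_lc.Alg
import Pool.Agent.Lib.MP_4ed7e0_lc.Com

/-! # Project R4A, module A9: the main theorem -/

set_option autoImplicit false

namespace Pool.Agent.R4A

noncomputable section

universe u

variable {p : ℕ} {K L M : Type u} [Field K] [Field L] [Algebra K L]
  [CommRing M] [Algebra K M]

/-- additive polynomials as polynomials -/
theorem exists_poly {n : ℕ} (P : Fin n → ℕ →₀ K) : ∃ q : MvPolynomial (Fin n) K,
    ∀ (N : Type u) [CommRing N] [Algebra K N] (x : Fin n → N), MvPolynomial.aeval x q = evs p P x := by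
  refine ⟨∑ j, (P j).sum fun k c => MvPolynomial.C c * MvPolynomial.X j ^ p ^ k, ?_⟩
  intro N _ _ x
  simp only [evs, ev, map_sum, Finsupp.sum, map_mul, map_pow, MvPolynomial.aeval_X,
    MvPolynomial.aeval_C]

theorem fin_mem {n : ℕ} [Fact p.Prime] [CharP K p] (x : Fin n → L) (P : Fin n → ℕ →₀ K) (c : K) :
    evs p P x - algebraMap K L c ∈ spn p K (Fin.cons 1 x : Fin (n + 1) → L) := by
  have h1 : evs p P x ∈ spn p K (Fin.cons 1 x : Fin (n + 1) → L) := by
    have hx : ∀ i, x i ∈ spn p K (Fin.cons 1 x : Fin (n + 1) → L) := by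
      intro i
      have := spn_self (p := p) (K := K) (Fin.cons 1 x : Fin (n + 1) → L) i.succ
      rwa [Fin.cons_succ] at this
    have h0 : (0 : L) ∈ spn p K (Fin.cons 1 x : Fin (n + 1) → L) := ⟨0, (evs_poly_zero _).symm⟩
    exact spn_le (p := p) (K := K) h0 (fun a ha b hb => spn_add _ ha hb)
      (fun c a ha => spn_smul _ c ha) (fun a ha => spn_pow _ ha) hx ⟨P, rfl⟩
  have h2 : algebraMap K L (-c) * 1 ∈ spn p K (Fin.cons 1 x : Fin (n + 1) → L) := by
    apply spn_smul
    have := spn_self (p := p) (K := K) (Fin.cons 1 x : Fin (n + 1) → L) 0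
    rwa [Fin.cons_zero] at this
  have h3 := spn_add _ h1 h2
  rwa [mul_one, map_neg, ← sub_eq_add_neg] at h3

theorem main [Fact p.Prime] [CharP K p] (hK : Large K) {O : ValuationSubring L} (h : IsRat K O)
    {n r s : ℕ} (A : Fin r → Fin n → ℕ →₀ K) (c : Fin r → K) (B : Fin s → Fin n → ℕ →₀ K)
    (d : Fin s → K) (hx : ∃ x : Fin n → L, (∀ i, evs p (A i) x = algebraMap K L (c i)) ∧
      ∀ i, evs p (B i) x ≠ algebraMap K L (d i)) :
    ∃ x : Fin n → K, (∀ i, evs p (A i) x = c i) ∧ ∀ i, evs p (B i) x ≠ d i := by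
  classical
  obtain ⟨x, hA, hB⟩ := hx
  set W := spn p K (Fin.cons 1 x : Fin (n + 1) → L) with hW
  have hW0 : (0 : L) ∈ W := ⟨0, (evs_poly_zero _).symm⟩
  have hWa : ∀ a ∈ W, ∀ b ∈ W, a + b ∈ W := fun a ha b hb => spn_add _ ha hb
  have hWs : ∀ (c : K), ∀ a ∈ W, algebraMap K L c * a ∈ W := fun c a ha => spn_smul _ c ha
  have hWf : ∀ a ∈ W, a ^ p ∈ W := fun a ha => spn_pow _ ha
  have hxW : ∀ i, x i ∈ W := by
    intro i
    have := spn_self (p := p) (K := K) (Fin.cons 1 x : Fin (n + 1) → L) i.succ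
    rwa [Fin.cons_succ] at this
  have h1W : (1 : L) ∈ W := by
    have := spn_self (p := p) (K := K) (Fin.cons 1 x : Fin (n + 1) → L) 0
    rwa [Fin.cons_zero] at this
  have hcW : ∀ c : K, algebraMap K L c ∈ W := by
    intro c
    have := hWs c 1 h1W
    rwa [mul_one] at this
  obtain ⟨θ, hθ, hθ1, hθF⟩ := com h x (Finset.univ.image fun i => evs p (B i) x -
    algebraMap K L (d i)) (by
    intro w hw
    rw [Finset.mem_image] at hw
    obtain ⟨i, -, rfl⟩ := hw
    exact ⟨fin_mem x (B i) (d i), sub_ne_zero.2 (hB i)⟩)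
  have hθc : ∀ c : K, θ (algebraMap K L c) = algebraMap K (LaurentSeries K) c := by
    intro c
    have := hθ.smul c 1 h1W
    rwa [mul_one, hθ1, mul_one] at this
  have hθe : ∀ P : Fin n → ℕ →₀ K, θ (evs p P x) = evs p P (fun i => θ (x i)) :=
    fun P => hm_evs hWa hWs hWf hxW hW0 hθ P
  set X : Fin n → LaurentSeries K := fun i => θ (x i) with hX
  have hA' : ∀ i, evs p (A i) X = algebraMap K (LaurentSeries K) (c i) := by
    intro i
    rw [← hθe, hA, hθc]
  have hB' : ∀ i, evs p (B i) X - algebraMap K (LaurentSeries K) (d i) ≠ 0 := by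
    intro i
    have h1 := hθF (evs p (B i) x - algebraMap K L (d i))
      (Finset.mem_image.2 ⟨i, Finset.mem_univ _, rfl⟩)
    have h2 : θ (evs p (B i) x - algebraMap K L (d i)) =
        evs p (B i) X - algebraMap K (LaurentSeries K) (d i) := by
      have h3 : evs p (B i) x ∈ W := by
        have := hWa _ (fin_mem x (B i) (d i)) _ (hcW (d i))
        rwa [sub_add_cancel] at this
      have h4 := hθ.add (evs p (B i) x) h3 (algebraMap K L (-d i)) (hcW _)
      rw [hθc, hθe] at h4
      rw [map_neg, map_neg] at h4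
      rw [sub_eq_add_neg, h4, sub_eq_add_neg]
    rwa [h2] at h1
  -- the polynomials
  choose qA hqA using fun i => exists_poly (p := p) (A i)
  choose qB hqB using fun i => exists_poly (p := p) (B i)
  set PP : MvPolynomial (Fin n) K := ∏ i, (qB i - MvPolynomial.C (d i)) with hPP
  let inc : MvPolynomial (Fin n) K →ₐ[K] MvPolynomial (Fin (n + 1)) K :=
    MvPolynomial.rename Fin.succ
  have hinc : ∀ (N : Type u) [CommRing N] [Algebra K N] (z : Fin (n + 1) → N)
      (q : MvPolynomial (Fin n) K), MvPolynomial.aeval z (inc q) =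
        MvPolynomial.aeval (fun i => z i.succ) q := by
    intro N _ _ z q
    change MvPolynomial.aeval z (MvPolynomial.rename Fin.succ q) = _
    rw [MvPolynomial.aeval_rename]
    rfl
  let S : Finset (MvPolynomial (Fin (n + 1)) K) :=
    (Finset.univ.image fun i => inc (qA i - MvPolynomial.C (c i))) ∪
      {inc PP * MvPolynomial.X 0 - 1}
  have hPi : ∀ (N : Type u) [CommRing N] [Algebra K N] (z : Fin n → N),
      MvPolynomial.aeval z PP = ∏ i, (evs p (B i) z - algebraMap K N (d i)) := by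
    intro N _ _ z
    rw [hPP, map_prod]
    refine Finset.prod_congr rfl fun i _ => ?_
    rw [map_sub, hqB, MvPolynomial.aeval_C]
  obtain ⟨z, hz⟩ := hK (n + 1) S ⟨Fin.cons (∏ i, (evs p (B i) X -
    algebraMap K (LaurentSeries K) (d i)))⁻¹ X, by
      intro q hq
      rw [Finset.mem_union, Finset.mem_image, Finset.mem_singleton] at hq
      rcases hq with ⟨i, -, rfl⟩ | rfl
      · rw [hinc]
        simp only [Fin.cons_succ]
        rw [map_sub, hqA, MvPolynomial.aeval_C, sub_eq_zero]
        exact hA' i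
      · rw [map_sub, map_mul, hinc, MvPolynomial.aeval_X, map_one]
        simp only [Fin.cons_succ, Fin.cons_zero]
        rw [hPi, sub_eq_zero]
        exact mul_inv_cancel₀ (Finset.prod_ne_zero_iff.2 fun i _ => hB' i)⟩
  have hz' : ∀ q ∈ S, MvPolynomial.aeval z q = (0 : K) := by
    intro q hq
    have := hz q hq
    rwa [← MvPolynomial.coe_aeval_eq_eval] at this
  refine ⟨fun i => z i.succ, fun i => ?_, fun i => ?_⟩
  · have h1 := hz' (inc (qA i - MvPolynomial.C (c i))) (Finset.mem_union_left _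
      (Finset.mem_image.2 ⟨i, Finset.mem_univ _, rfl⟩))
    rw [hinc, map_sub, hqA, MvPolynomial.aeval_C, sub_eq_zero] at h1
    exact h1
  · intro hi
    have h1 := hz' (inc PP * MvPolynomial.X 0 - 1) (Finset.mem_union_right _
      (Finset.mem_singleton_self _))
    rw [map_sub, map_mul, hinc, hPi, map_one] at h1
    have h2 : ∏ i, (evs p (B i) (fun i => z i.succ) - algebraMap K K (d i)) = 0 :=
      Finset.prod_eq_zero (Finset.mem_univ i) (sub_eq_zero.2 hi)
    rw [h2, zero_mul, zero_sub, neg_eq_zero] at h1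
    exact one_ne_zero h1

end

end Pool.Agent.R4A
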