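import Pool.Agent.Lib.MP_4ed7e0_lc.Ctx

/-!
MP_4ed7e0_lc, project R4A, module A10 VAN: the vanishing ideal of an additive group of points is
generated by additive polynomials.
-/

set_option autoImplicit false

namespace Pool.Agent.R4A

noncomputable section

universe u

variable {p : ℕ} {K : Type u} [Field K]

section Van

open MvPolynomial

/-- the product of binomial coefficients -/
def van_ch {n : ℕ} (b a : Fin n →₀ ℕ) : ℕ := ∏ i, (b i).choose (a i)

theorem van_ch_self {n : ℕ} (b : Fin n →₀ ℕ) : van_ch b b = 1 := by
  simp [van_ch]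

theorem van_ch_not {n : ℕ} {b a : Fin n →₀ ℕ} (h : ¬ a ≤ b) : van_ch b a = 0 := by
  rw [Finsupp.le_def, not_forall] at h
  obtain ⟨i, hi⟩ := h
  exact Finset.prod_eq_zero (Finset.mem_univ i) (Nat.choose_eq_zero_of_lt (not_le.1 hi))

/-- the coefficients of the powers of `X` in `r (X + Y)`, as polynomials in `Y` -/
def van_h {n : ℕ} (a : Fin n →₀ ℕ) (r : MvPolynomial (Fin n) K) : MvPolynomial (Fin n) K :=
  ∑ b ∈ r.support, monomial (b - a) (coeff b r * (van_ch b a : K))

/-- the shift by `s` -/
def van_sh {n : ℕ} (s : Fin n → K) : MvPolynomial (Fin n) K →ₐ[K] MvPolynomial (Fin n) K :=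
  aeval fun i => X i + C (s i)

theorem van_coeff_prod {n : ℕ} (s : Fin n → K) (b a : Fin n →₀ ℕ) :
    coeff a (∏ i, (X i + C (s i)) ^ b i : MvPolynomial (Fin n) K) =
      (van_ch b a : K) * ∏ i, s i ^ (b i - a i) := by
  classical
  have h1 : ∀ i, (X i + C (s i) : MvPolynomial (Fin n) K) ^ b i =
      ∑ k ∈ Finset.range (b i + 1), monomial (Finsupp.single i k)
        (s i ^ (b i - k) * ((b i).choose k : K)) := by
    intro i
    rw [add_pow]
    refine Finset.sum_congr rfl fun k _ => ?_
    rw [X_pow_eq_monomial, ← C_pow, mul_assoc, ← map_natCast C, ← C_mul, mul_comm,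
      C_mul_monomial, mul_one]
  simp only [h1]
  rw [Finset.prod_univ_sum, coeff_sum]
  have h2 : ∀ q : Fin n → ℕ, (∏ i, monomial (Finsupp.single i (q i))
      (s i ^ (b i - q i) * ((b i).choose (q i) : K)) : MvPolynomial (Fin n) K) =
      monomial (Finsupp.equivFunOnFinite.symm q)
        (∏ i, (s i ^ (b i - q i) * ((b i).choose (q i) : K))) := by
    intro q
    rw [← monomial_sum_prod]
    congr 1
    congr 1
    ext j
    simp [Finsupp.finsetSum_apply, Finsupp.single_apply]
  simp only [h2, coeff_monomial]
  by_cases hab : a ≤ b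
  · rw [Finset.sum_eq_single_of_mem (a : Fin n → ℕ)]
    · rw [if_pos (by ext j; rfl), van_ch, Nat.cast_prod, ← Finset.prod_mul_distrib]
      exact Finset.prod_congr rfl fun i _ => mul_comm _ _
    · rw [Fintype.mem_piFinset]
      intro i
      rw [Finset.mem_range]
      exact Nat.lt_succ_of_le (hab i)
    · intro q _ hq
      rw [if_neg]
      intro h
      apply hq
      rw [← h]
      rfl
  · rw [van_ch_not hab, Nat.cast_zero, zero_mul]
    apply Finset.sum_eq_zero
    intro q hq
    rw [if_neg]
    intro h
    apply hab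
    rw [← h]
    intro i
    have := Fintype.mem_piFinset.1 hq i
    rw [Finset.mem_range] at this
    exact Nat.lt_succ_iff.1 this

theorem van_coeff_sh {n : ℕ} (s : Fin n → K) (a : Fin n →₀ ℕ) (r : MvPolynomial (Fin n) K) :
    coeff a (van_sh s r) = eval s (van_h a r) := by
  classical
  conv_lhs => rw [r.as_sum]
  rw [map_sum, coeff_sum, van_h, map_sum]
  refine Finset.sum_congr rfl fun b _ => ?_
  have h1 : van_sh s (monomial b (coeff b r)) = C (coeff b r) * ∏ i, (X i + C (s i)) ^ b i := by
    rw [van_sh, aeval_monomial, Finsupp.prod_fintype _ _ (fun i => pow_zero _)]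
    rfl
  rw [h1, coeff_C_mul, van_coeff_prod, eval_monomial, Finsupp.prod_fintype _ _
    (fun i => pow_zero _)]
  simp only [Finsupp.tsub_apply]
  ring

theorem van_eval_sh {n : ℕ} (s t : Fin n → K) (r : MvPolynomial (Fin n) K) :
    eval t (van_sh s r) = eval (t + s) r := by
  have h0 : ∀ (t : Fin n → K) (q : MvPolynomial (Fin n) K), eval t q = aeval t q := by
    intro t q
    rw [← coe_aeval_eq_eval]
    rfl
  have h2 : ((aeval t).comp (van_sh s) : MvPolynomial (Fin n) K →ₐ[K] K) = aeval (t + s) := by
    apply algHom_ext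
    intro i
    rw [AlgHom.comp_apply, van_sh, aeval_X, map_add, aeval_X, aeval_C, aeval_X]
    rfl
  rw [h0, ← AlgHom.comp_apply, h2, h0]

/-- the support of `van_h a r` -/
theorem van_h_coeff {n : ℕ} {a c : Fin n →₀ ℕ} {r : MvPolynomial (Fin n) K}
    (h : coeff c (van_h a r) ≠ 0) : ∃ b ∈ r.support, a ≤ b ∧ c = b - a := by
  classical
  rw [van_h, coeff_sum] at h
  obtain ⟨b, hb, hb'⟩ := Finset.exists_ne_zero_of_sum_ne_zero h
  rw [coeff_monomial] at hb'
  refine ⟨b, hb, ?_, ?_⟩
  · by_contra hab
    apply hb'
    rw [van_ch_not hab, Nat.cast_zero, mul_zero, ite_self]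
  · by_contra hc
    exact hb' (if_neg (Ne.symm hc))

theorem van_h_coeff_sub {n : ℕ} {a b : Fin n →₀ ℕ} (r : MvPolynomial (Fin n) K) (hab : a ≤ b) :
    coeff (b - a) (van_h a r) = coeff b r * (van_ch b a : K) := by
  classical
  rw [van_h, coeff_sum]
  simp only [coeff_monomial]
  by_cases hb : b ∈ r.support
  · rw [Finset.sum_eq_single_of_mem b hb, if_pos rfl]
    intro b' hb' hne
    by_cases hab' : a ≤ b'
    · rw [if_neg]
      intro h
      apply hne
      rw [← tsub_add_cancel_of_le hab', h, tsub_add_cancel_of_le hab]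
    · rw [van_ch_not hab', Nat.cast_zero, mul_zero, ite_self]
  · rw [notMem_support_iff.1 hb, zero_mul]
    apply Finset.sum_eq_zero
    intro b' hb'
    by_cases hab' : a ≤ b'
    · rw [if_neg]
      intro h
      apply hb
      rw [← tsub_add_cancel_of_le hab, ← h, tsub_add_cancel_of_le hab']
      exact hb'
    · rw [van_ch_not hab', Nat.cast_zero, mul_zero, ite_self]

/-- exponents whose binomial coefficients vanish modulo `p` -/
theorem van_pow [Fact p.Prime] [CharP K p] {n : ℕ} {b : Fin n →₀ ℕ} (hb : b ≠ 0)
    (h : ∀ a ≤ b, a ≠ 0 → a ≠ b → (van_ch b a : K) = 0) :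
    ∃ (i : Fin n) (k : ℕ), b = Finsupp.single i (p ^ k) := by
  classical
  obtain ⟨i, hi⟩ : ∃ i, b i ≠ 0 := by
    by_contra hc
    push Not at hc
    exact hb (Finsupp.ext hc)
  have hsl : Finsupp.single i (b i) ≤ b := by
    intro j
    rw [Finsupp.single_apply]
    split_ifs with hij
    · rw [hij]
    · exact Nat.zero_le _
  have hbi : b = Finsupp.single i (b i) := by
    by_contra hne
    have h1 := h _ hsl (by rwa [Ne, Finsupp.single_eq_zero]) (Ne.symm hne)
    have h2 : van_ch b (Finsupp.single i (b i)) = 1 := by
      rw [van_ch]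
      apply Finset.prod_eq_one
      intro j _
      rw [Finsupp.single_apply]
      split_ifs with hij
      · rw [hij, Nat.choose_self]
      · rw [Nat.choose_zero_right]
    rw [h2, Nat.cast_one] at h1
    exact one_ne_zero h1
  have h3 : ∀ c ∈ Finset.Icc 1 (b i - 1), (b i).choose c ≡ 0 [MOD p] := by
    intro c hc
    rw [Finset.mem_Icc] at hc
    have hc1 : Finsupp.single i c ≤ b := by
      intro j
      rw [Finsupp.single_apply]
      split_ifs with hij
      · rw [← hij]; omega
      · exact Nat.zero_le _
    have h1 := h (Finsupp.single i c) hc1 (by rw [Ne, Finsupp.single_eq_zero]; omega) (by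
      intro h
      have := DFunLike.congr_fun h i
      rw [Finsupp.single_eq_same] at this
      omega)
    have h2 : van_ch b (Finsupp.single i c) = (b i).choose c := by
      rw [van_ch, Finset.prod_eq_single_of_mem i (Finset.mem_univ i), Finsupp.single_eq_same]
      intro j _ hj
      rw [Finsupp.single_eq_of_ne hj, Nat.choose_zero_right]
    rw [h2, CharP.cast_eq_zero_iff K p] at h1
    exact (Nat.modEq_zero_iff_dvd).2 h1
  have h4 := Choose.eq_pow_multiplicity_of_choose_modEq_zero_nat (Nat.pos_of_ne_zero hi) h3
  exact ⟨i, multiplicity p (b i), by rw [← h4]; exact hbi⟩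

/-- an additive polynomial, as a polynomial -/
def van_poly (p : ℕ) {n : ℕ} (P : Fin n → ℕ →₀ K) : MvPolynomial (Fin n) K :=
  ∑ j, (P j).sum fun k c => C c * X j ^ p ^ k

theorem van_poly_aeval {n : ℕ} (P : Fin n → ℕ →₀ K) {N : Type u} [CommRing N] [Algebra K N]
    (x : Fin n → N) : aeval x (van_poly p P) = evs p P x := by
  simp only [van_poly, evs, ev, map_sum, Finsupp.sum, map_mul, map_pow, aeval_X, aeval_C]

theorem van_poly_exists {n : ℕ} (hp : 1 < p) (r : MvPolynomial (Fin n) K)
    (h : ∀ b ∈ r.support, ∃ (i : Fin n) (k : ℕ), b = Finsupp.single i (p ^ k)) :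
    ∃ P : Fin n → ℕ →₀ K, r = van_poly p P := by
  classical
  set D := r.totalDegree with hD
  have hb : ∀ (i : Fin n) (k : ℕ), coeff (Finsupp.single i (p ^ k)) r ≠ 0 → k < D + 1 := by
    intro i k hk
    have h1 := le_totalDegree (mem_support_iff.2 hk)
    rw [Finsupp.sum_single_index rfl] at h1
    have h2 : k < p ^ k := Nat.lt_pow_self hp
    omega
  refine ⟨fun i => Finsupp.onFinset (Finset.range (D + 1))
    (fun k => coeff (Finsupp.single i (p ^ k)) r) (fun k hk => Finset.mem_range.2 (hb i k hk)), ?_⟩
  have h1 : ∀ i, (Finsupp.onFinset (Finset.range (D + 1))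
      (fun k => coeff (Finsupp.single i (p ^ k)) r)
      (fun k hk => Finset.mem_range.2 (hb i k hk))).sum
        (fun k c => (C c * X i ^ p ^ k : MvPolynomial (Fin n) K)) =
      ∑ k ∈ Finset.range (D + 1),
        monomial (Finsupp.single i (p ^ k)) (coeff (Finsupp.single i (p ^ k)) r) := by
    intro i
    rw [Finsupp.onFinset_sum]
    · refine Finset.sum_congr rfl fun k _ => ?_
      rw [X_pow_eq_monomial, C_mul_monomial, mul_one]
    · intro k
      rw [C_0, zero_mul]
  rw [van_poly, Finset.sum_congr rfl fun i _ => h1 i]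
  ext c
  rw [coeff_sum]
  simp only [coeff_sum, coeff_monomial]
  by_cases hc : c ∈ r.support
  · obtain ⟨i, k, rfl⟩ := h c hc
    have hk := hb i k (mem_support_iff.1 hc)
    rw [Finset.sum_eq_single_of_mem i (Finset.mem_univ i),
      Finset.sum_eq_single_of_mem k (Finset.mem_range.2 hk), if_pos rfl]
    · intro k' _ hk'
      rw [if_neg]
      intro h
      apply hk'
      have := Finsupp.single_injective i h
      exact Nat.pow_right_injective hp this
    · intro j _ hj
      apply Finset.sum_eq_zero
      intro k' _
      rw [if_neg]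
      intro h
      rw [Finsupp.single_eq_single_iff] at h
      rcases h with ⟨h, -⟩ | ⟨h, -⟩
      · exact hj h
      · have : 0 < p ^ k' := pow_pos (by omega) _
        omega
  · rw [notMem_support_iff.1 hc]
    symm
    apply Finset.sum_eq_zero
    intro i _
    apply Finset.sum_eq_zero
    intro k _
    split_ifs with h
    · rw [h, notMem_support_iff.1 hc]
    · rfl

/-- a reduced polynomial vanishing on an additive group of points is zero -/
theorem van_red [Fact p.Prime] [CharP K p] {n : ℕ} (S : AddSubgroup (Fin n → K))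
    (m : MonomialOrder (Fin n)) (r : MvPolynomial (Fin n) K)
    (hr : ∀ c ∈ r.support, ∀ P : Fin n → ℕ →₀ K, van_poly p P ≠ 0 →
      (∀ s ∈ S, eval s (van_poly p P) = 0) → ¬ m.degree (van_poly p P) ≤ c)
    (hS : ∀ s ∈ S, eval s r = 0) : r = 0 := by
  classical
  have hp : 1 < p := (Fact.out : p.Prime).one_lt
  induction hd : m.toSyn (m.degree r) using WellFoundedLT.induction generalizing r with
  | ind d ih =>
    subst hd
    by_contra hr0
    have hmem : m.degree r ∈ r.support := m.degree_mem_support hr0
    have h00 : coeff 0 r = 0 := by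
      have := hS 0 S.zero_mem
      rwa [eval_zero, constantCoeff_eq] at this
    have hdeg : m.degree r ≠ 0 := by
      intro h
      rw [h] at hmem
      exact mem_support_iff.1 hmem h00
    have hpos : m.toSyn 0 < m.toSyn (m.degree r) := by
      rw [map_zero, m.toSyn_lt_iff_ne_zero, Ne, m.toSyn_eq_zero_iff]
      exact hdeg
    -- first step: the shifts
    have h1 : ∀ s ∈ S, van_sh s r = r := by
      intro s hs
      have hsupp : ∀ c ∈ (van_sh s r - r).support, ∃ b ∈ r.support, c ≤ b := by
        intro c hc
        rw [mem_support_iff, coeff_sub, van_coeff_sh] at hc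
        by_cases hc' : c ∈ r.support
        · exact ⟨c, hc', le_rfl⟩
        · rw [notMem_support_iff.1 hc', sub_zero] at hc
          have h2 : van_h c r ≠ 0 := by
            intro h
            rw [h, map_zero] at hc
            exact hc rfl
          obtain ⟨e, he⟩ := exists_coeff_ne_zero h2
          obtain ⟨b, hb, hcb, -⟩ := van_h_coeff he
          exact ⟨b, hb, hcb⟩
      rw [← sub_eq_zero]
      refine ih _ ?_ _ ?_ ?_ rfl
      · rw [m.degree_lt_iff hpos]
        intro c hc
        obtain ⟨b, hb, hcb⟩ := hsupp c hc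
        have h2 := (m.toSyn_monotone hcb).trans (m.le_degree hb)
        refine lt_of_le_of_ne h2 ?_
        intro h3
        have h4 := m.toSyn.injective h3
        subst h4
        have h5 : b = m.degree r := m.toSyn.injective
          (le_antisymm (m.le_degree hb) (m.toSyn_monotone hcb))
        apply mem_support_iff.1 hc
        rw [coeff_sub, van_coeff_sh, sub_eq_zero]
        have h6 : van_h (m.degree r) r = C (coeff (m.degree r) r) := by
          ext e
          by_cases he : coeff e (van_h (m.degree r) r) = 0
          · rw [he, coeff_C]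
            split_ifs with he0
            · subst he0
              have := van_h_coeff_sub r (le_refl (m.degree r))
              rw [tsub_self, van_ch_self, Nat.cast_one, mul_one] at this
              rw [← this, he]
            · rfl
          · obtain ⟨b', hb', hb'', rfl⟩ := van_h_coeff he
            have h7 : b' = m.degree r := m.toSyn.injective
              (le_antisymm (m.le_degree hb') (m.toSyn_monotone hb''))
            subst h7
            rw [van_h_coeff_sub r le_rfl, van_ch_self, Nat.cast_one, mul_one, tsub_self, coeff_C,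
              if_pos rfl]
        rw [h6, eval_C]
      · intro c hc P hP hPS hle
        obtain ⟨b, hb, hcb⟩ := hsupp c hc
        exact hr b hb P hP hPS (hle.trans hcb)
      · intro t ht
        rw [map_sub, van_eval_sh, hS t ht, hS _ (S.add_mem ht hs), sub_zero]
    -- second step: the coefficients
    have h2 : ∀ a : Fin n →₀ ℕ, a ≠ 0 → van_h a r = C (coeff a r) := by
      intro a ha
      rw [← sub_eq_zero]
      have hsupp : ∀ c ∈ (van_h a r - C (coeff a r)).support, c = 0 ∨
          ∃ b ∈ r.support, a ≤ b ∧ c = b - a := by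
        intro c hc
        rw [mem_support_iff, coeff_sub, coeff_C] at hc
        by_cases hc0 : c = 0
        · exact Or.inl hc0
        · rw [if_neg (Ne.symm hc0), sub_zero] at hc
          exact Or.inr (van_h_coeff hc)
      refine ih _ ?_ _ ?_ ?_ rfl
      · rw [m.degree_lt_iff hpos]
        intro c hc
        rcases hsupp c hc with rfl | ⟨b, hb, hab, rfl⟩
        · exact hpos
        · refine lt_of_lt_of_le (m.toSyn_strictMono ?_) (m.le_degree hb)
          refine lt_of_le_of_ne tsub_le_self ?_
          intro h
          apply ha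
          have h3 : b - a + a = b - a + 0 := by
            rw [tsub_add_cancel_of_le hab, h, add_zero]
          exact add_left_cancel h3
      · intro c hc P hP hPS hle
        rcases hsupp c hc with rfl | ⟨b, hb, hab, rfl⟩
        · exact hr _ hmem P hP hPS (hle.trans (zero_le))
        · exact hr b hb P hP hPS (hle.trans tsub_le_self)
      · intro s hs
        rw [map_sub, ← van_coeff_sh, h1 s hs, eval_C, sub_self]
    -- third step: `r` is additive
    obtain ⟨P, hP⟩ := van_poly_exists hp r (by
      intro b hb
      apply van_pow (p := p) (K := K)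
      · rintro rfl
        exact mem_support_iff.1 hb h00
      · intro a hab ha0 hne
        have h3 := van_h_coeff_sub r hab
        rw [h2 a ha0, coeff_C, if_neg] at h3
        · rcases mul_eq_zero.1 h3.symm with h4 | h4
          · exact absurd h4 (mem_support_iff.1 hb)
          · exact h4
        · intro h
          apply hne
          rw [← tsub_add_cancel_of_le hab, ← h, zero_add])
    refine hr _ hmem P (hP ▸ hr0) (hP ▸ hS) ?_
    rw [← hP]

/-- a polynomial vanishing on an additive group of points vanishes wherever all the additive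
polynomials vanishing on the group do -/
theorem van [Fact p.Prime] [CharP K p] {n : ℕ} (S : AddSubgroup (Fin n → K)) {N : Type u}
    [CommRing N] [Algebra K N] (x : Fin n → N)
    (hx : ∀ P : Fin n → ℕ →₀ K, (∀ s ∈ S, evs p P s = (0 : K)) → evs p P x = 0)
    (g : MvPolynomial (Fin n) K) (hg : ∀ s ∈ S, eval s g = 0) : aeval x g = 0 := by
  classical
  have h0 : ∀ (t : Fin n → K) (q : MvPolynomial (Fin n) K), eval t q = aeval t q := by
    intro t q
    rw [← coe_aeval_eq_eval]
    rfl
  set m : MonomialOrder (Fin n) := MonomialOrder.lex with hm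
  set B : Set (MvPolynomial (Fin n) K) := {q | q ≠ 0 ∧ ∃ P : Fin n → ℕ →₀ K, q = van_poly p P ∧
    ∀ s ∈ S, eval s q = 0} with hB
  obtain ⟨c, r, h1, -, h2⟩ := m.div_set (B := B) (fun b hb =>
    (isUnit_iff_ne_zero).2 (m.leadingCoeff_ne_zero_iff.2 hb.1)) g
  have h3 : ∀ s ∈ S, eval s r = 0 := by
    intro s hs
    have h4 := hg s hs
    rw [h1, map_add, Finsupp.linearCombination_apply, Finsupp.sum, map_sum,
      Finset.sum_eq_zero, zero_add] at h4
    · exact h4
    · intro b _
      obtain ⟨-, P, -, hb⟩ := b.2
      rw [smul_eq_mul, map_mul, hb s hs, mul_zero]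
  have h4 : r = 0 := by
    apply van_red (p := p) S m r _ h3
    intro e he P hP hPS
    exact h2 e he _ ⟨hP, P, rfl, hPS⟩
  rw [h1, h4, add_zero, Finsupp.linearCombination_apply, Finsupp.sum, map_sum]
  apply Finset.sum_eq_zero
  intro b _
  obtain ⟨-, P, hP, hb⟩ := b.2
  have h5 : aeval x (b : MvPolynomial (Fin n) K) = 0 := by
    rw [hP, van_poly_aeval]
    apply hx P
    intro s hs
    rw [← van_poly_aeval, ← h0, ← hP]
    exact hb s hs
  rw [smul_eq_mul, map_mul, h5, mul_zero]

end Van

end

end Pool.Agent.R4A
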