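import Pool.Agent.Lib.MP_4ed7e0_lc.Fin
import Pool.Agent.Lib.MP_4ed7e0_lc.Van

/-!
MP_4ed7e0_lc, project R4A, module A11 OPN: additive equations and arbitrary polynomial inequations.
-/

set_option autoImplicit false

namespace Pool.Agent.R4A

noncomputable section

universe u

variable {p : ℕ} {K L : Type u} [Field K] [Field L] [Algebra K L]

section Opn

open MvPolynomial

theorem opn_neg [Fact p.Prime] [CharP K p] {M : Type u} [CommRing M] [Algebra K M] {n : ℕ}
    (P : Fin n → ℕ →₀ K) (x y : Fin n → M) :
    evs p P (x - y) = evs p P x - evs p P y := by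
  rw [eq_sub_iff_add_eq, ← evs_add, sub_add_cancel]

theorem opn_alg {n : ℕ} (P : Fin n → ℕ →₀ K) (y : Fin n → K) :
    evs p P (fun i => algebraMap K L (y i)) = algebraMap K L (evs p P y) := by
  simp only [evs, ev, Finsupp.sum, map_sum, map_mul, map_pow]
  rfl

/-- additive equations and one arbitrary polynomial inequation -/
theorem main_opn [Fact p.Prime] [CharP K p] (hK : Large K) {O : ValuationSubring L}
    (h : IsRat K O) {n r : ℕ} (A : Fin r → Fin n → ℕ →₀ K) (c : Fin r → K)
    (g : MvPolynomial (Fin n) K) (hx : ∃ x : Fin n → L,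
      (∀ i, evs p (A i) x = algebraMap K L (c i)) ∧ aeval x g ≠ 0) :
    ∃ x : Fin n → K, (∀ i, evs p (A i) x = c i) ∧ eval x g ≠ 0 := by
  classical
  obtain ⟨x, hA, hg⟩ := hx
  -- a solution of the equations
  obtain ⟨y, hy, -⟩ := main (p := p) hK h A c (s := 0) Fin.elim0 Fin.elim0
    ⟨x, hA, fun i => i.elim0⟩
  by_contra hcon
  push Not at hcon
  -- the group of solutions of the homogeneous equations
  let S : AddSubgroup (Fin n → K) :=
    { carrier := {z | ∀ i, evs p (A i) z = 0}
      add_mem' := by
        intro a b ha hb i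
        rw [evs_add, ha i, hb i, add_zero]
      zero_mem' := by
        intro i
        have := opn_neg (p := p) (A i) (0 : Fin n → K) 0
        rwa [sub_self, sub_self] at this
      neg_mem' := by
        intro a ha i
        have h1 := opn_neg (p := p) (A i) a a
        rw [sub_self, sub_self] at h1
        have h2 := opn_neg (p := p) (A i) 0 a
        rw [zero_sub, h1, ha i, sub_zero] at h2
        exact h2 }
  have hSm : ∀ z, z ∈ S ↔ ∀ i, evs p (A i) z = 0 := fun z => Iff.rfl
  -- the translated polynomial
  have h0 : ∀ (t : Fin n → K) (q : MvPolynomial (Fin n) K), eval t q = aeval t q := by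
    intro t q
    rw [← coe_aeval_eq_eval]
    rfl
  have hsh : ∀ t : Fin n → L, aeval t (van_sh y g) =
      aeval (t + fun i => algebraMap K L (y i)) g := by
    intro t
    have h2 : ((aeval t).comp (van_sh y) : MvPolynomial (Fin n) K →ₐ[K] L) =
        aeval (t + fun i => algebraMap K L (y i)) := by
      apply algHom_ext
      intro i
      rw [AlgHom.comp_apply, van_sh, aeval_X, map_add, aeval_X, aeval_C, aeval_X]
      rfl
    rw [← h2]
    rfl
  set yL : Fin n → L := fun i => algebraMap K L (y i) with hyL
  by_cases hall : ∀ P : Fin n → ℕ →₀ K, (∀ s ∈ S, evs p P s = (0 : K)) → evs p P (x - yL) = 0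
  · have h1 := van (p := p) S (x - yL) hall (van_sh y g) (by
      intro s hs
      rw [van_eval_sh]
      apply hcon
      intro i
      rw [evs_add, (hSm s).1 hs i, zero_add, hy i])
    rw [hsh, sub_add_cancel] at h1
    exact hg h1
  · push Not at hall
    obtain ⟨P, hP, hPx⟩ := hall
    obtain ⟨z, hz, hz'⟩ := main (p := p) hK h A c (s := 1) (fun _ => P) (fun _ => evs p P y)
      ⟨x, hA, fun _ => by
        rw [opn_neg, hyL, opn_alg] at hPx
        exact fun h => hPx (sub_eq_zero.2 h)⟩
    apply hz' 0
    have h1 := hP (z - y) (by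
      rw [hSm]
      intro i
      rw [opn_neg, hz i, hy i, sub_self])
    rw [opn_neg, sub_eq_zero] at h1
    exact h1

end Opn

end

end Pool.Agent.R4A
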